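import Mathlib

open Set Filter Topology
open scoped ContDiff

namespace Pool.Agent.Helper661.HD

/-- partial derivative in the first variable -/
noncomputable def d1 (f : ℝ × ℝ → ℝ) (z : ℝ × ℝ) : ℝ := fderiv ℝ f z (1, 0)

/-- partial derivative in the second variable -/
noncomputable def d2 (f : ℝ × ℝ → ℝ) (z : ℝ × ℝ) : ℝ := fderiv ℝ f z (0, 1)

theorem fderiv_eq (f : ℝ × ℝ → ℝ) (z h : ℝ × ℝ) :
    fderiv ℝ f z h = d1 f z * h.1 + d2 f z * h.2 := by
  have : h = h.1 • ((1 : ℝ), (0 : ℝ)) + h.2 • ((0 : ℝ), (1 : ℝ)) := by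
    ext <;> simp
  conv_lhs => rw [this]
  rw [map_add, map_smul, map_smul, smul_eq_mul, smul_eq_mul, d1, d2]
  ring

theorem contDiff_fderiv {f : ℝ × ℝ → ℝ} (hf : ContDiff ℝ ∞ f) : ContDiff ℝ ∞ (fderiv ℝ f) :=
  (contDiff_infty_iff_fderiv.1 hf).2

theorem contDiff_d1 {f : ℝ × ℝ → ℝ} (hf : ContDiff ℝ ∞ f) : ContDiff ℝ ∞ (d1 f) :=
  (contDiff_fderiv hf).clm_apply contDiff_const

theorem contDiff_d2 {f : ℝ × ℝ → ℝ} (hf : ContDiff ℝ ∞ f) : ContDiff ℝ ∞ (d2 f) :=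
  (contDiff_fderiv hf).clm_apply contDiff_const

theorem diff_of {f : ℝ × ℝ → ℝ} (hf : ContDiff ℝ ∞ f) : Differentiable ℝ f :=
  hf.differentiable (by simp)

theorem symm_of {f : ℝ × ℝ → ℝ} (hf : ContDiff ℝ 2 f) (z x y : ℝ × ℝ) :
    fderiv ℝ (fderiv ℝ f) z x y = fderiv ℝ (fderiv ℝ f) z y x :=
  (hf.contDiffAt.isSymmSndFDerivAt (by simp)) x y

theorem d12_comm {f : ℝ × ℝ → ℝ} (hf : ContDiff ℝ 2 f) (z : ℝ × ℝ) :
    d1 (d2 f) z = d2 (d1 f) z := by
  have hd : DifferentiableAt ℝ (fderiv ℝ f) z :=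
    (hf.fderiv_right (m := 1) (by norm_num)).differentiable (by norm_num) z
  have e1 : d1 (d2 f) z = fderiv ℝ (fderiv ℝ f) z (1, 0) (0, 1) := by
    unfold d1 d2
    rw [fderiv_clm_apply hd (differentiableAt_const _)]
    simp
  have e2 : d2 (d1 f) z = fderiv ℝ (fderiv ℝ f) z (0, 1) (1, 0) := by
    unfold d1 d2
    rw [fderiv_clm_apply hd (differentiableAt_const _)]
    simp
  rw [e1, e2, symm_of hf]

/-- Poincaré's lemma in the form used here: if `df ∧ dX + dg ∧ dY = 0` then `f dX + g dY` has a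
primitive. -/
theorem poinc {f g X Y : ℝ × ℝ → ℝ} (hf : ContDiff ℝ ∞ f) (hg : ContDiff ℝ ∞ g)
    (hX : ContDiff ℝ ∞ X) (hY : ContDiff ℝ ∞ Y)
    (h : ∀ z, d1 f z * d2 X z - d2 f z * d1 X z + (d1 g z * d2 Y z - d2 g z * d1 Y z) = 0) :
    ∃ U : ℝ × ℝ → ℝ, ContDiff ℝ ∞ U ∧
      ∀ z, HasFDerivAt U (f z • fderiv ℝ X z + g z • fderiv ℝ Y z) z := by
  set om : ℝ × ℝ → (ℝ × ℝ →L[ℝ] ℝ) := fun z => f z • fderiv ℝ X z + g z • fderiv ℝ Y z with hom
  have homs : ContDiff ℝ ∞ om :=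
    (hf.smul (contDiff_fderiv hX)).add (hg.smul (contDiff_fderiv hY))
  have hX2 : ContDiff ℝ 2 X := contDiff_infty.1 hX 2
  have hY2 : ContDiff ℝ 2 Y := contDiff_infty.1 hY 2
  have hder : ∀ z x y, fderiv ℝ om z x y = fderiv ℝ f z x * fderiv ℝ X z y
      + f z * fderiv ℝ (fderiv ℝ X) z x y + (fderiv ℝ g z x * fderiv ℝ Y z y
      + g z * fderiv ℝ (fderiv ℝ Y) z x y) := by
    intro z x y
    have h1 : HasFDerivAt om (f z • fderiv ℝ (fderiv ℝ X) z + (fderiv ℝ f z).smulRight (fderiv ℝ X z)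
        + (g z • fderiv ℝ (fderiv ℝ Y) z + (fderiv ℝ g z).smulRight (fderiv ℝ Y z))) z := by
      refine HasFDerivAt.add ?_ ?_
      · exact (diff_of hf z).hasFDerivAt.smul
          ((contDiff_fderiv hX).differentiable (by simp) z).hasFDerivAt
      · exact (diff_of hg z).hasFDerivAt.smul
          ((contDiff_fderiv hY).differentiable (by simp) z).hasFDerivAt
    rw [h1.fderiv]
    simp
    ring
  obtain ⟨U, hU⟩ := convex_univ.exists_forall_hasFDerivAt_of_fderiv_symmetric (𝕜 := ℝ) isOpen_univ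
    (homs.differentiable (by simp)).differentiableOn (by
      intro z _ x y
      rw [hder, hder, symm_of hX2 z x y, symm_of hY2 z x y]
      simp only [fderiv_eq f, fderiv_eq g, fderiv_eq X, fderiv_eq Y]
      linear_combination (x.1 * y.2 - x.2 * y.1) * h z)
  refine ⟨U, ?_, fun z => hU z (mem_univ z)⟩
  rw [contDiff_infty_iff_fderiv]
  refine ⟨fun z => (hU z (mem_univ z)).differentiableAt, ?_⟩
  have : fderiv ℝ U = om := funext fun z => (hU z (mem_univ z)).fderiv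
  rw [this]
  exact homs

/-- a smooth bijection of the plane with injective differentials has a smooth inverse -/
theorem inv_smooth {Φ Ψ : ℝ × ℝ → ℝ × ℝ} (hΦ : ContDiff ℝ ∞ Φ) (hl : ∀ z, Ψ (Φ z) = z)
    (hr : ∀ p, Φ (Ψ p) = p) (hinj : ∀ z, Function.Injective (fderiv ℝ Φ z)) :
    ContDiff ℝ ∞ Ψ := by
  rw [contDiff_iff_contDiffAt]
  intro p
  have hsurj : Function.Surjective (fderiv ℝ Φ (Ψ p)) :=
    (LinearMap.injective_iff_surjective (f := (fderiv ℝ Φ (Ψ p) : ℝ × ℝ →ₗ[ℝ] ℝ × ℝ))).1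
      (hinj (Ψ p))
  let e : (ℝ × ℝ) ≃L[ℝ] (ℝ × ℝ) := ContinuousLinearEquiv.ofBijective (fderiv ℝ Φ (Ψ p))
    (LinearMap.ker_eq_bot.2 (hinj (Ψ p))) (LinearMap.range_eq_top.2 hsurj)
  have he : HasFDerivAt Φ (e : ℝ × ℝ →L[ℝ] ℝ × ℝ) (Ψ p) := by
    have : (e : ℝ × ℝ →L[ℝ] ℝ × ℝ) = fderiv ℝ Φ (Ψ p) :=
      ContinuousLinearEquiv.coe_ofBijective _ _ _
    rw [this]
    exact (hΦ.differentiable (by simp) _).hasFDerivAt
  have h1 : ContDiffAt ℝ ∞ Φ (Ψ p) := hΦ.contDiffAt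
  have h2 := h1.to_localInverse he (by simp)
  have h3 := (h1.hasStrictFDerivAt' he (by simp)).localInverse_unique (g := Ψ)
    (Filter.Eventually.of_forall fun z => hl z)
  rw [hr] at h2 h3
  exact h2.congr_of_eventuallyEq h3


/-- `u` is an entire solution: `u` is of class `C²`, `u₁₁ ≥ 0`, `u₂₂ ≥ 0` (coordinate-convexity)
and `u₁₁ u₂₂ = 1`. -/
structure IsEntire (u : ℝ × ℝ → ℝ) : Prop where
  c2 : ContDiff ℝ 2 u
  nn1 : ∀ p, 0 ≤ d1 (d1 u) p
  nn2 : ∀ p, 0 ≤ d2 (d2 u) p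
  eq : ∀ p, d1 (d1 u) p * d2 (d2 u) p = 1

/-- A hodograph pair: smooth functions `X, Y` of `(w, v)` with `Y_w = e^w X_v`, `Y_v = -e^w X_w`
such that `(X, Y)` is a bijection of the plane and the differential of `X` vanishes nowhere. -/
structure Hodo (X Y : ℝ × ℝ → ℝ) : Prop where
  smX : ContDiff ℝ ∞ X
  smY : ContDiff ℝ ∞ Y
  bij : Function.Bijective fun z => (X z, Y z)
  nd : ∀ z, d1 X z ≠ 0 ∨ d2 X z ≠ 0
  eq1 : ∀ z, d1 Y z = Real.exp z.1 * d2 X z
  eq2 : ∀ z, d2 Y z = -(Real.exp z.1 * d1 X z)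

theorem HasFDerivAt.d1_eq {f : ℝ × ℝ → ℝ} {f' : ℝ × ℝ →L[ℝ] ℝ} {z : ℝ × ℝ}
    (h : HasFDerivAt f f' z) : d1 f z = f' (1, 0) := by rw [d1, h.fderiv]

theorem HasFDerivAt.d2_eq {f : ℝ × ℝ → ℝ} {f' : ℝ × ℝ →L[ℝ] ℝ} {z : ℝ × ℝ}
    (h : HasFDerivAt f f' z) : d2 f z = f' (0, 1) := by rw [d2, h.fderiv]

theorem d1_fst (z : ℝ × ℝ) : d1 (fun z : ℝ × ℝ => z.1) z = 1 := by
  rw [HasFDerivAt.d1_eq hasFDerivAt_fst]; rfl

theorem d2_fst (z : ℝ × ℝ) : d2 (fun z : ℝ × ℝ => z.1) z = 0 := by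
  rw [HasFDerivAt.d2_eq hasFDerivAt_fst]; rfl

theorem d1_snd (z : ℝ × ℝ) : d1 (fun z : ℝ × ℝ => z.2) z = 0 := by
  rw [HasFDerivAt.d1_eq hasFDerivAt_snd]; rfl

theorem d2_snd (z : ℝ × ℝ) : d2 (fun z : ℝ × ℝ => z.2) z = 1 := by
  rw [HasFDerivAt.d2_eq hasFDerivAt_snd]; rfl

/-- derivatives of `g ∘ f` for a function `g` of one variable -/
theorem d1_comp {g : ℝ → ℝ} {g' : ℝ} {f : ℝ × ℝ → ℝ} {z : ℝ × ℝ} (hg : HasDerivAt g g' (f z))
    (hf : DifferentiableAt ℝ f z) : d1 (fun z => g (f z)) z = g' * d1 f z := by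
  have h : HasFDerivAt (fun z => g (f z)) (g' • fderiv ℝ f z) z :=
    hg.comp_hasFDerivAt z hf.hasFDerivAt
  rw [HasFDerivAt.d1_eq h]
  simp [d1]

theorem d2_comp {g : ℝ → ℝ} {g' : ℝ} {f : ℝ × ℝ → ℝ} {z : ℝ × ℝ} (hg : HasDerivAt g g' (f z))
    (hf : DifferentiableAt ℝ f z) : d2 (fun z => g (f z)) z = g' * d2 f z := by
  have h : HasFDerivAt (fun z => g (f z)) (g' • fderiv ℝ f z) z :=
    hg.comp_hasFDerivAt z hf.hasFDerivAt
  rw [HasFDerivAt.d2_eq h]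
  simp [d2]

theorem d1_exp (z : ℝ × ℝ) : d1 (fun z : ℝ × ℝ => Real.exp z.1) z = Real.exp z.1 := by
  rw [d1_comp (Real.hasDerivAt_exp _) differentiableAt_fst, d1_fst, mul_one]

theorem d2_exp (z : ℝ × ℝ) : d2 (fun z : ℝ × ℝ => Real.exp z.1) z = 0 := by
  rw [d2_comp (Real.hasDerivAt_exp _) differentiableAt_fst, d2_fst, mul_zero]

theorem hasDerivAt_exp_neg (x : ℝ) : HasDerivAt (fun x => Real.exp (-x)) (-Real.exp (-x)) x := by
  have := (hasDerivAt_neg x).exp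
  simpa using this

theorem d1_expn (z : ℝ × ℝ) : d1 (fun z : ℝ × ℝ => Real.exp (-z.1)) z = -Real.exp (-z.1) := by
  rw [d1_comp (hasDerivAt_exp_neg _) differentiableAt_fst, d1_fst, mul_one]

theorem d2_expn (z : ℝ × ℝ) : d2 (fun z : ℝ × ℝ => Real.exp (-z.1)) z = 0 := by
  rw [d2_comp (hasDerivAt_exp_neg _) differentiableAt_fst, d2_fst, mul_zero]

theorem contDiff_exp1 : ContDiff ℝ ∞ (fun z : ℝ × ℝ => Real.exp z.1) :=
  Real.contDiff_exp.comp contDiff_fst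

theorem contDiff_expn1 : ContDiff ℝ ∞ (fun z : ℝ × ℝ => Real.exp (-z.1)) :=
  Real.contDiff_exp.comp contDiff_fst.neg

theorem prim_d {U f g X Y : ℝ × ℝ → ℝ}
    (hU : ∀ z, HasFDerivAt U (f z • fderiv ℝ X z + g z • fderiv ℝ Y z) z) (z : ℝ × ℝ) :
    d1 U z = f z * d1 X z + g z * d1 Y z ∧ d2 U z = f z * d2 X z + g z * d2 Y z := by
  rw [HasFDerivAt.d1_eq (hU z), HasFDerivAt.d2_eq (hU z)]
  simp [d1, d2]

/-- change of variables -/
theorem push {X Y U a b : ℝ × ℝ → ℝ} {Ψ : ℝ × ℝ → ℝ × ℝ} (hX : ContDiff ℝ ∞ X)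
    (hY : ContDiff ℝ ∞ Y) (hΨ : ContDiff ℝ ∞ Ψ) (hr : ∀ p, (X (Ψ p), Y (Ψ p)) = p)
    (hU : ∀ z, HasFDerivAt U (a z • fderiv ℝ X z + b z • fderiv ℝ Y z) z) (p : ℝ × ℝ) :
    d1 (fun p => U (Ψ p)) p = a (Ψ p) ∧ d2 (fun p => U (Ψ p)) p = b (Ψ p) := by
  have hΨp := (hΨ.differentiable (by simp) p).hasFDerivAt
  have h1 : (fderiv ℝ X (Ψ p)).comp (fderiv ℝ Ψ p) = ContinuousLinearMap.fst ℝ ℝ ℝ := by
    have e1 : HasFDerivAt (fun p => X (Ψ p)) ((fderiv ℝ X (Ψ p)).comp (fderiv ℝ Ψ p)) p :=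
      (diff_of hX (Ψ p)).hasFDerivAt.comp p hΨp
    have e2 : (fun p => X (Ψ p)) = fun p => p.1 := funext fun p => congrArg Prod.fst (hr p)
    rw [e2] at e1
    exact e1.unique hasFDerivAt_fst
  have h2 : (fderiv ℝ Y (Ψ p)).comp (fderiv ℝ Ψ p) = ContinuousLinearMap.snd ℝ ℝ ℝ := by
    have e1 : HasFDerivAt (fun p => Y (Ψ p)) ((fderiv ℝ Y (Ψ p)).comp (fderiv ℝ Ψ p)) p :=
      (diff_of hY (Ψ p)).hasFDerivAt.comp p hΨp
    have e2 : (fun p => Y (Ψ p)) = fun p => p.2 := funext fun p => congrArg Prod.snd (hr p)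
    rw [e2] at e1
    exact e1.unique hasFDerivAt_snd
  have h3 : HasFDerivAt (fun p => U (Ψ p)) (a (Ψ p) • ContinuousLinearMap.fst ℝ ℝ ℝ
      + b (Ψ p) • ContinuousLinearMap.snd ℝ ℝ ℝ) p := by
    have := (hU (Ψ p)).comp p hΨp
    rw [ContinuousLinearMap.add_comp, ContinuousLinearMap.smul_comp,
      ContinuousLinearMap.smul_comp, h1, h2] at this
    exact this
  rw [HasFDerivAt.d1_eq h3, HasFDerivAt.d2_eq h3]
  simp

/-- the differential of a hodograph pair is injective -/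
theorem hodo_inj {X Y : ℝ × ℝ → ℝ} (hX : ContDiff ℝ ∞ X) (hY : ContDiff ℝ ∞ Y)
    (hdet : ∀ z, d1 X z * d2 Y z - d2 X z * d1 Y z ≠ 0) (z : ℝ × ℝ) :
    Function.Injective (fderiv ℝ (fun z => (X z, Y z)) z) := by
  have h1 : HasFDerivAt (fun z => (X z, Y z)) ((fderiv ℝ X z).prod (fderiv ℝ Y z)) z :=
    (diff_of hX z).hasFDerivAt.prodMk (diff_of hY z).hasFDerivAt
  rw [h1.fderiv, injective_iff_map_eq_zero]
  intro h hh
  have e1 : fderiv ℝ X z h = 0 := congrArg Prod.fst hh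
  have e2 : fderiv ℝ Y z h = 0 := congrArg Prod.snd hh
  rw [fderiv_eq] at e1 e2
  have f1 : (d1 X z * d2 Y z - d2 X z * d1 Y z) * h.1 = 0 := by
    linear_combination d2 Y z * e1 - d2 X z * e2
  have f2 : (d1 X z * d2 Y z - d2 X z * d1 Y z) * h.2 = 0 := by
    linear_combination d1 X z * e2 - d1 Y z * e1
  ext
  · exact (mul_eq_zero.1 f1).resolve_left (hdet z)
  · exact (mul_eq_zero.1 f2).resolve_left (hdet z)

theorem Hodo.det {X Y : ℝ × ℝ → ℝ} (h : Hodo X Y) (z : ℝ × ℝ) :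
    d1 X z * d2 Y z - d2 X z * d1 Y z ≠ 0 := by
  rw [h.eq1, h.eq2]
  have e : d1 X z * -(Real.exp z.1 * d1 X z) - d2 X z * (Real.exp z.1 * d2 X z) =
      -(Real.exp z.1 * (d1 X z ^ 2 + d2 X z ^ 2)) := by ring
  rw [e, neg_ne_zero]
  refine mul_ne_zero (Real.exp_pos _).ne' ?_
  rcases h.nd z with h1 | h1
  · have := sq_pos_of_ne_zero h1
    positivity
  · have := sq_pos_of_ne_zero h1
    positivity

/-- the entire solution given by a hodograph pair -/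
theorem exists_sol {X Y : ℝ × ℝ → ℝ} (h : Hodo X Y) : ∃ u : ℝ × ℝ → ℝ, ContDiff ℝ ∞ u ∧
    IsEntire u ∧ ∀ z, d1 (d1 u) (X z, Y z) = Real.exp z.1 ∧ d2 (d1 u) (X z, Y z) = z.2 := by
  obtain ⟨P, hPs, hP⟩ := poinc (f := fun z => Real.exp z.1) (g := fun z => z.2) contDiff_exp1
    contDiff_snd h.smX h.smY (fun z => by
      rw [d1_exp, d2_exp, d1_snd, d2_snd, h.eq1, h.eq2]; ring)
  obtain ⟨Q, hQs, hQ⟩ := poinc (f := fun z => z.2) (g := fun z => Real.exp (-z.1)) contDiff_snd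
    contDiff_expn1 h.smX h.smY (fun z => by
      rw [d1_expn, d2_expn, d1_snd, d2_snd, h.eq1, h.eq2]
      have : Real.exp (-z.1) * Real.exp z.1 = 1 := by rw [← Real.exp_add]; simp
      linear_combination d1 X z * this)
  obtain ⟨U, hUs, hU⟩ := poinc (f := P) (g := Q) hPs hQs h.smX h.smY (fun z => by
      obtain ⟨p1, p2⟩ := prim_d hP z
      obtain ⟨q1, q2⟩ := prim_d hQ z
      rw [p1, p2, q1, q2]
      ring)
  obtain ⟨Ψ, hl, hr⟩ := Function.bijective_iff_has_inverse.1 h.bij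
  have hΨ : ContDiff ℝ ∞ Ψ := inv_smooth (h.smX.prodMk h.smY) hl hr
    (hodo_inj h.smX h.smY h.det)
  have hu := push h.smX h.smY hΨ hr hU
  have hp := push h.smX h.smY hΨ hr hP
  have hq := push h.smX h.smY hΨ hr hQ
  have e1 : d1 (fun p => U (Ψ p)) = fun p => P (Ψ p) := funext fun p => (hu p).1
  have e2 : d2 (fun p => U (Ψ p)) = fun p => Q (Ψ p) := funext fun p => (hu p).2
  have hus : ContDiff ℝ ∞ (fun p => U (Ψ p)) := hUs.comp hΨ
  refine ⟨fun p => U (Ψ p), hus, ⟨contDiff_infty.1 hus 2, ?_, ?_, ?_⟩, ?_⟩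
  · intro p
    rw [e1, (hp p).1]
    exact (Real.exp_pos _).le
  · intro p
    rw [e2, (hq p).2]
    exact (Real.exp_pos _).le
  · intro p
    rw [e1, e2, (hp p).1, (hq p).2, ← Real.exp_add]
    simp
  · intro z
    have hz : Ψ (X z, Y z) = z := hl z
    rw [e1, (hp _).1, (hp _).2, hz]
    exact ⟨rfl, rfl⟩

/-- a function of class `C²` whose second derivatives vanish is affine -/
theorem affine_of {g : ℝ × ℝ → ℝ} (hg : ContDiff ℝ 2 g) (h11 : ∀ p, d1 (d1 g) p = 0)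
    (h21 : ∀ p, d2 (d1 g) p = 0) (h22 : ∀ p, d2 (d2 g) p = 0) :
    ∃ a b c : ℝ, ∀ p, g p = a + b * p.1 + c * p.2 := by
  have hgd : Differentiable ℝ g := hg.differentiable (by norm_num)
  have hd : Differentiable ℝ (fderiv ℝ g) :=
    (hg.fderiv_right (m := 1) (by norm_num)).differentiable (by norm_num)
  have hd1 : Differentiable ℝ (d1 g) := fun z => (hd z).clm_apply (differentiableAt_const _)
  have hd2 : Differentiable ℝ (d2 g) := fun z => (hd z).clm_apply (differentiableAt_const _)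
  have c1 : ∀ p, d1 g p = d1 g 0 := fun p => by
    refine is_const_of_fderiv_eq_zero (𝕜 := ℝ) hd1 (fun z => ?_) p 0
    ext
    · simpa [fderiv_eq] using h11 z
    · simpa [fderiv_eq] using h21 z
  have c2 : ∀ p, d2 g p = d2 g 0 := fun p => by
    refine is_const_of_fderiv_eq_zero (𝕜 := ℝ) hd2 (fun z => ?_) p 0
    ext
    · simpa [fderiv_eq, d12_comm hg] using h21 z
    · simpa [fderiv_eq] using h22 z
  refine ⟨g 0, d1 g 0, d2 g 0, fun p => ?_⟩
  have h0 : ∀ p, g p - (d1 g 0 * p.1 + d2 g 0 * p.2) = g 0 - (d1 g 0 * 0 + d2 g 0 * 0) := by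
    intro p
    refine is_const_of_fderiv_eq_zero (𝕜 := ℝ)
      (f := fun p : ℝ × ℝ => g p - (d1 g 0 * p.1 + d2 g 0 * p.2)) (by fun_prop) (fun z => ?_) p 0
    have h1 : HasFDerivAt (fun p : ℝ × ℝ => g p - (d1 g 0 * p.1 + d2 g 0 * p.2))
        (fderiv ℝ g z - (d1 g 0 • ContinuousLinearMap.fst ℝ ℝ ℝ
          + d2 g 0 • ContinuousLinearMap.snd ℝ ℝ ℝ)) z :=
      (hgd z).hasFDerivAt.sub
        ((hasFDerivAt_fst.const_mul (d1 g 0)).add (hasFDerivAt_snd.const_mul (d2 g 0)))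
    rw [h1.fderiv]
    ext
    · simp [fderiv_eq, c1 z]
    · simp [fderiv_eq, c2 z]
  have := h0 p
  linarith

theorem IsEntire.pos {u : ℝ × ℝ → ℝ} (h : IsEntire u) (p : ℝ × ℝ) : 0 < d1 (d1 u) p := by
  rcases (h.nn1 p).eq_or_lt with h0 | h0
  · have := h.eq p
    rw [← h0, zero_mul] at this
    exact absurd this (by norm_num)
  · exact h0

theorem IsEntire.d22 {u : ℝ × ℝ → ℝ} (h : IsEntire u) (p : ℝ × ℝ) :
    d2 (d2 u) p = (d1 (d1 u) p)⁻¹ := by
  have h1 := h.eq p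
  have h2 := (h.pos p).ne'
  field_simp
  linarith

theorem d1_sub' {f g : ℝ × ℝ → ℝ} (hf : Differentiable ℝ f) (hg : Differentiable ℝ g) :
    d1 (fun z => f z - g z) = fun z => d1 f z - d1 g z := by
  funext z
  have h : HasFDerivAt (fun z => f z - g z) (fderiv ℝ f z - fderiv ℝ g z) z :=
    (hf z).hasFDerivAt.sub (hg z).hasFDerivAt
  rw [HasFDerivAt.d1_eq h]
  rfl

theorem d2_sub' {f g : ℝ × ℝ → ℝ} (hf : Differentiable ℝ f) (hg : Differentiable ℝ g) :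
    d2 (fun z => f z - g z) = fun z => d2 f z - d2 g z := by
  funext z
  have h : HasFDerivAt (fun z => f z - g z) (fderiv ℝ f z - fderiv ℝ g z) z :=
    (hf z).hasFDerivAt.sub (hg z).hasFDerivAt
  rw [HasFDerivAt.d2_eq h]
  rfl

theorem diff_d1 {f : ℝ × ℝ → ℝ} (hf : ContDiff ℝ 2 f) : Differentiable ℝ (d1 f) := fun z =>
  ((hf.fderiv_right (m := 1) (by norm_num)).differentiable (by norm_num) z).clm_apply
    (differentiableAt_const _)

theorem diff_d2 {f : ℝ × ℝ → ℝ} (hf : ContDiff ℝ 2 f) : Differentiable ℝ (d2 f) := fun z =>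
  ((hf.fderiv_right (m := 1) (by norm_num)).differentiable (by norm_num) z).clm_apply
    (differentiableAt_const _)

/-- the hodograph pair determines the solution up to affine functions -/
theorem sol_unique {X Y : ℝ × ℝ → ℝ} (h : Hodo X Y) {u u' : ℝ × ℝ → ℝ} (hu : IsEntire u)
    (hu' : IsEntire u')
    (h1 : ∀ z, d1 (d1 u) (X z, Y z) = Real.exp z.1 ∧ d2 (d1 u) (X z, Y z) = z.2)
    (h2 : ∀ z, d1 (d1 u') (X z, Y z) = Real.exp z.1 ∧ d2 (d1 u') (X z, Y z) = z.2) :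
    ∃ a b c : ℝ, ∀ p, u' p = u p + (a + b * p.1 + c * p.2) := by
  have hd : Differentiable ℝ u := hu.c2.differentiable (by norm_num)
  have hd' : Differentiable ℝ u' := hu'.c2.differentiable (by norm_num)
  have e11 : ∀ p, d1 (d1 u') p = d1 (d1 u) p := fun p => by
    obtain ⟨z, hz⟩ := h.bij.2 p
    simp only at hz
    rw [← hz, (h1 z).1, (h2 z).1]
  have e21 : ∀ p, d2 (d1 u') p = d2 (d1 u) p := fun p => by
    obtain ⟨z, hz⟩ := h.bij.2 p
    simp only at hz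
    rw [← hz, (h1 z).2, (h2 z).2]
  have e22 : ∀ p, d2 (d2 u') p = d2 (d2 u) p := fun p => by
    rw [hu.d22, hu'.d22, e11]
  obtain ⟨a, b, c, habc⟩ := affine_of (g := fun p => u' p - u p) (hu'.c2.sub hu.c2)
    (fun p => by
      rw [d1_sub' hd' hd, d1_sub' (diff_d1 hu'.c2) (diff_d1 hu.c2)]
      show d1 (d1 u') p - d1 (d1 u) p = 0
      rw [e11, sub_self])
    (fun p => by
      rw [d1_sub' hd' hd, d2_sub' (diff_d1 hu'.c2) (diff_d1 hu.c2)]
      show d2 (d1 u') p - d2 (d1 u) p = 0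
      rw [e21, sub_self])
    (fun p => by
      rw [d2_sub' hd' hd, d2_sub' (diff_d2 hu'.c2) (diff_d2 hu.c2)]
      show d2 (d2 u') p - d2 (d2 u) p = 0
      rw [e22, sub_self])
  exact ⟨a, b, c, fun p => by linarith [habc p]⟩

/-- differentiating `f (Ψ z) = z.1` -/
theorem chain_coord {f : ℝ × ℝ → ℝ} {Ψ : ℝ × ℝ → ℝ × ℝ} (hf : ContDiff ℝ ∞ f)
    (hΨ : ContDiff ℝ ∞ Ψ) (z e : ℝ × ℝ) : fderiv ℝ (fun z => f (Ψ z)) z e =
      d1 f (Ψ z) * fderiv ℝ (fun z => (Ψ z).1) z e + d2 f (Ψ z) * fderiv ℝ (fun z => (Ψ z).2) z e := by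
  have hΨz := (hΨ.differentiable (by simp) z).hasFDerivAt
  have h1 : HasFDerivAt (fun z => f (Ψ z)) ((fderiv ℝ f (Ψ z)).comp (fderiv ℝ Ψ z)) z :=
    (diff_of hf (Ψ z)).hasFDerivAt.comp z hΨz
  have h2 : HasFDerivAt (fun z => (Ψ z).1) ((ContinuousLinearMap.fst ℝ ℝ ℝ).comp (fderiv ℝ Ψ z)) z :=
    hasFDerivAt_fst.comp z hΨz
  have h3 : HasFDerivAt (fun z => (Ψ z).2) ((ContinuousLinearMap.snd ℝ ℝ ℝ).comp (fderiv ℝ Ψ z)) z :=
    hasFDerivAt_snd.comp z hΨz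
  rw [h1.fderiv, h2.fderiv, h3.fderiv]
  simp only [ContinuousLinearMap.comp_apply, fderiv_eq f]
  rfl

/-- a smooth entire solution whose hodograph map is bijective and such that the differential of
`u₁₁` vanishes nowhere comes from a hodograph pair -/
theorem hodo_of_sol {u : ℝ × ℝ → ℝ} (hu : ContDiff ℝ ∞ u) (he : IsEntire u)
    (hb : Function.Bijective fun p => (Real.log (d1 (d1 u) p), d2 (d1 u) p))
    (hnd : ∀ p, fderiv ℝ (d1 (d1 u)) p ≠ 0) :
    ∃ X Y, Hodo X Y ∧ ∀ z, d1 (d1 u) (X z, Y z) = Real.exp z.1 ∧ d2 (d1 u) (X z, Y z) = z.2 := by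
  obtain ⟨w, hw⟩ : ∃ w : ℝ × ℝ → ℝ, w = fun p => Real.log (d1 (d1 u) p) := ⟨_, rfl⟩
  obtain ⟨v, hv⟩ : ∃ v : ℝ × ℝ → ℝ, v = fun p => d2 (d1 u) p := ⟨_, rfl⟩
  have h1s := contDiff_d1 hu
  have h2s := contDiff_d2 hu
  have h11s := contDiff_d1 h1s
  have hws : ContDiff ℝ ∞ w := by
    rw [hw]; exact h11s.log fun p => (he.pos p).ne'
  have hvs : ContDiff ℝ ∞ v := by
    rw [hv]; exact contDiff_d2 h1s
  have hE : d1 (d1 u) = fun p => Real.exp (w p) := by
    funext p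
    rw [hw, Real.exp_log (he.pos p)]
  have hF : d2 (d2 u) = fun p => Real.exp (-w p) := by
    funext p
    rw [he.d22, Real.exp_neg, hE]
  have hv1 : ∀ p, d1 v p = Real.exp (w p) * d2 w p := fun p => by
    have e1 : d1 v p = d2 (d1 (d1 u)) p := by
      rw [hv]; exact d12_comm (contDiff_infty.1 h1s 2) p
    rw [e1, hE, d2_comp (Real.hasDerivAt_exp _) (diff_of hws p)]
  have hv2 : ∀ p, d2 v p = -(Real.exp (-w p) * d1 w p) := fun p => by
    have e0 : v = d1 (d2 u) := by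
      rw [hv]; funext q; exact (d12_comm (contDiff_infty.1 hu 2) q).symm
    have e1 : d2 v p = d1 (d2 (d2 u)) p := by
      rw [e0]; exact (d12_comm (contDiff_infty.1 h2s 2) p).symm
    rw [e1, hF, d1_comp (hasDerivAt_exp_neg _) (diff_of hws p)]
    ring
  have hnd' : ∀ p, d1 w p ≠ 0 ∨ d2 w p ≠ 0 := fun p => by
    by_contra hcon
    push Not at hcon
    apply hnd p
    ext
    · show fderiv ℝ (d1 (d1 u)) p (1, 0) = 0
      have : fderiv ℝ (d1 (d1 u)) p (1, 0) = d1 (d1 (d1 u)) p := rfl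
      rw [this, hE, d1_comp (Real.hasDerivAt_exp _) (diff_of hws p), hcon.1, mul_zero]
    · show fderiv ℝ (d1 (d1 u)) p (0, 1) = 0
      have : fderiv ℝ (d1 (d1 u)) p (0, 1) = d2 (d1 (d1 u)) p := rfl
      rw [this, hE, d2_comp (Real.hasDerivAt_exp _) (diff_of hws p), hcon.2, mul_zero]
  have hΔ : ∀ p, 0 < Real.exp (-w p) * d1 w p ^ 2 + Real.exp (w p) * d2 w p ^ 2 := fun p => by
    rcases hnd' p with h | h
    · have := sq_pos_of_ne_zero h
      positivity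
    · have := sq_pos_of_ne_zero h
      positivity
  have hbij : Function.Bijective fun p => (w p, v p) := by rw [hw, hv]; exact hb
  obtain ⟨Ψ, hl, hr⟩ := Function.bijective_iff_has_inverse.1 hbij
  have hΨ : ContDiff ℝ ∞ Ψ := inv_smooth (hws.prodMk hvs) hl hr
    (hodo_inj hws hvs fun p => by
      rw [hv1, hv2]
      have e : d1 w p * -(Real.exp (-w p) * d1 w p) - d2 w p * (Real.exp (w p) * d2 w p) =
        -(Real.exp (-w p) * d1 w p ^ 2 + Real.exp (w p) * d2 w p ^ 2) := by ring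
      rw [e, neg_ne_zero]
      exact (hΔ p).ne')
  have hr1 : ∀ z, w (Ψ z) = z.1 := fun z => congrArg Prod.fst (hr z)
  have hr2 : ∀ z, v (Ψ z) = z.2 := fun z => congrArg Prod.snd (hr z)
  have c1 : ∀ z e, d1 w (Ψ z) * fderiv ℝ (fun z => (Ψ z).1) z e
      + d2 w (Ψ z) * fderiv ℝ (fun z => (Ψ z).2) z e = e.1 := fun z e => by
    rw [← chain_coord hws hΨ]
    have : (fun z => w (Ψ z)) = fun z => z.1 := funext hr1
    rw [this, hasFDerivAt_fst.fderiv]
    rfl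
  have c2 : ∀ z e, d1 v (Ψ z) * fderiv ℝ (fun z => (Ψ z).1) z e
      + d2 v (Ψ z) * fderiv ℝ (fun z => (Ψ z).2) z e = e.2 := fun z e => by
    rw [← chain_coord hvs hΨ]
    have : (fun z => v (Ψ z)) = fun z => z.2 := funext hr2
    rw [this, hasFDerivAt_snd.fderiv]
    rfl
  have key : ∀ z, d1 (fun z => (Ψ z).2) z = Real.exp z.1 * d2 (fun z => (Ψ z).1) z ∧
      d2 (fun z => (Ψ z).2) z = -(Real.exp z.1 * d1 (fun z => (Ψ z).1) z) ∧
      (d1 (fun z => (Ψ z).1) z ≠ 0 ∨ d2 (fun z => (Ψ z).1) z ≠ 0) := by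
    intro z
    have q1 := c1 z (1, 0)
    have q2 := c2 z (1, 0)
    have q3 := c1 z (0, 1)
    have q4 := c2 z (0, 1)
    rw [hv1, hv2] at q2 q4
    rw [hr1] at q2 q4
    have hD := hΔ (Ψ z)
    rw [hr1] at hD
    change d1 w (Ψ z) * d1 (fun z => (Ψ z).1) z + d2 w (Ψ z) * d1 (fun z => (Ψ z).2) z = 1 at q1
    change Real.exp z.1 * d2 w (Ψ z) * d1 (fun z => (Ψ z).1) z
      + -(Real.exp (-z.1) * d1 w (Ψ z)) * d1 (fun z => (Ψ z).2) z = 0 at q2
    change d1 w (Ψ z) * d2 (fun z => (Ψ z).1) z + d2 w (Ψ z) * d2 (fun z => (Ψ z).2) z = 0 at q3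
    change Real.exp z.1 * d2 w (Ψ z) * d2 (fun z => (Ψ z).1) z
      + -(Real.exp (-z.1) * d1 w (Ψ z)) * d2 (fun z => (Ψ z).2) z = 1 at q4
    have hEF : Real.exp z.1 * Real.exp (-z.1) = 1 := by rw [← Real.exp_add]; simp
    generalize Real.exp z.1 = E at *
    generalize Real.exp (-z.1) = F at *
    generalize d1 w (Ψ z) = w1 at *
    generalize d2 w (Ψ z) = w2 at *
    generalize d1 (fun z => (Ψ z).1) z = X1 at *
    generalize d2 (fun z => (Ψ z).1) z = X2 at *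
    generalize d1 (fun z => (Ψ z).2) z = Y1 at *
    generalize d2 (fun z => (Ψ z).2) z = Y2 at *
    have f1 : (F * w1 ^ 2 + E * w2 ^ 2) * (Y1 - E * X2) = 0 := by
      linear_combination (E * w2) * q1 - w1 * q2 - E * (w2 * q4 + F * w1 * q3)
    have f2 : (F * w1 ^ 2 + E * w2 ^ 2) * (Y2 + E * X1) = 0 := by
      linear_combination (E * w2) * q3 - w1 * q4 + E * (F * w1 * q1 + w2 * q2) + w1 * hEF
    have g1 : Y1 = E * X2 := by
      have := (mul_eq_zero.1 f1).resolve_left hD.ne'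
      linarith
    have g2 : Y2 = -(E * X1) := by
      have := (mul_eq_zero.1 f2).resolve_left hD.ne'
      linarith
    refine ⟨g1, g2, ?_⟩
    by_contra hcon
    push Not at hcon
    rw [g1, hcon.1, hcon.2] at q1
    norm_num at q1
  refine ⟨fun z => (Ψ z).1, fun z => (Ψ z).2, ⟨hΨ.fst, hΨ.snd, ?_, fun z => (key z).2.2,
    fun z => (key z).1, fun z => (key z).2.1⟩, fun z => ?_⟩
  · exact Function.bijective_iff_has_inverse.2 ⟨fun p => (w p, v p), hr, hl⟩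
  · have e1 := hr1 z
    have e2 := hr2 z
    constructor
    · show d1 (d1 u) (Ψ z) = _
      rw [hE]
      show Real.exp (w (Ψ z)) = _
      rw [e1]
    · show d2 (d1 u) (Ψ z) = _
      rw [hv] at e2
      exact e2

/-- restriction to horizontal lines -/
theorem line1 {f : ℝ × ℝ → ℝ} (hf : Differentiable ℝ f) (c t : ℝ) :
    HasDerivAt (fun t => f (t, c)) (d1 f (t, c)) t := by
  have h1 : HasDerivAt (fun t : ℝ => (t, c)) ((1 : ℝ), (0 : ℝ)) t :=
    (hasDerivAt_id t).prodMk (hasDerivAt_const t c)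
  exact (hf (t, c)).hasFDerivAt.comp_hasDerivAt t h1

/-- restriction to vertical lines -/
theorem line2 {f : ℝ × ℝ → ℝ} (hf : Differentiable ℝ f) (c t : ℝ) :
    HasDerivAt (fun t => f (c, t)) (d2 f (c, t)) t := by
  have h1 : HasDerivAt (fun t : ℝ => (c, t)) ((0 : ℝ), (1 : ℝ)) t :=
    (hasDerivAt_const t c).prodMk (hasDerivAt_id t)
  exact (hf (c, t)).hasFDerivAt.comp_hasDerivAt t h1

/-- a function of one variable with derivative at least `m > 0` is a bijection -/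
theorem bij_of_deriv {f f' : ℝ → ℝ} {m : ℝ} (hm : 0 < m) (hf : ∀ x, HasDerivAt f (f' x) x)
    (hf' : ∀ x, m ≤ f' x) : Function.Bijective f := by
  have hmono : StrictMono f := strictMono_of_deriv_pos fun x => by
    rw [(hf x).deriv]; linarith [hf' x]
  have hcont : Continuous f := continuous_iff_continuousAt.2 fun x => (hf x).continuousAt
  have hd : ∀ x, HasDerivAt (fun x => f x - m * x) (f' x - m * 1) x := fun x =>
    (hf x).sub ((hasDerivAt_id x).const_mul m)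
  have hg : Monotone fun x => f x - m * x := by
    apply monotone_of_deriv_nonneg
    · exact fun x => (hd x).differentiableAt
    · intro x
      rw [(hd x).deriv]
      linarith [hf' x]
  refine ⟨hmono.injective, ?_⟩
  apply hcont.surjective
  · refine tendsto_atTop_mono' _ ?_ (tendsto_atTop_add_const_right atTop (f 0)
      (tendsto_id.const_mul_atTop hm))
    filter_upwards [eventually_ge_atTop 0] with x hx
    have := hg hx
    simp only [id] at *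
    linarith
  · refine tendsto_atBot_mono' _ ?_ (tendsto_atBot_add_const_right atBot (f 0)
      (tendsto_id.const_mul_atBot hm))
    filter_upwards [eventually_le_atBot 0] with x hx
    have := hg hx
    simp only [id] at *
    linarith

theorem bij_of_deriv_neg {f f' : ℝ → ℝ} {m : ℝ} (hm : 0 < m) (hf : ∀ x, HasDerivAt f (f' x) x)
    (hf' : ∀ x, f' x ≤ -m) : Function.Bijective f := by
  have h := bij_of_deriv (f := fun x => -f x) (f' := fun x => -f' x) hm (fun x => (hf x).neg)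
    (fun x => by linarith [hf' x])
  have h2 := (Equiv.neg ℝ).bijective.comp h
  have e : (⇑(Equiv.neg ℝ) ∘ fun x => -f x) = f := by
    funext x
    simp
  rwa [e] at h2

/-- the conjugate function -/
theorem exists_conj {X : ℝ × ℝ → ℝ} (hX : ContDiff ℝ ∞ X)
    (hL : ∀ z, d1 (d1 X) z + d1 X z + d2 (d2 X) z = 0) :
    ∃ Y : ℝ × ℝ → ℝ, ContDiff ℝ ∞ Y ∧ ∀ z, d1 Y z = Real.exp z.1 * d2 X z ∧
      d2 Y z = -(Real.exp z.1 * d1 X z) := by
  have s1 := contDiff_d1 hX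
  have s2 := contDiff_d2 hX
  obtain ⟨Y, hY, hYd⟩ := poinc (f := fun z => Real.exp z.1 * d2 X z)
    (g := fun z => -(Real.exp z.1 * d1 X z)) (X := fun z => z.1) (Y := fun z => z.2)
    (contDiff_exp1.mul s2) (contDiff_exp1.mul s1).neg contDiff_fst contDiff_snd (fun z => by
      rw [d1_fst, d2_fst, d1_snd, d2_snd]
      have e1 : d2 (fun z => Real.exp z.1 * d2 X z) z = Real.exp z.1 * d2 (d2 X) z := by
        have h : HasFDerivAt (fun z => Real.exp z.1 * d2 X z) _ z :=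
          ((diff_of contDiff_exp1 z).hasFDerivAt).mul ((diff_of s2 z).hasFDerivAt)
        rw [HasFDerivAt.d2_eq h]
        have h2 := d2_exp z
        unfold d2 at h2 ⊢
        simp only [add_apply, smul_apply, h2, smul_eq_mul]
        ring
      have e2 : d1 (fun z => -(Real.exp z.1 * d1 X z)) z =
          -(Real.exp z.1 * d1 X z + Real.exp z.1 * d1 (d1 X) z) := by
        have h : HasFDerivAt (fun z => -(Real.exp z.1 * d1 X z)) _ z :=
          (((diff_of contDiff_exp1 z).hasFDerivAt).mul ((diff_of s1 z).hasFDerivAt)).neg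
        rw [HasFDerivAt.d1_eq h]
        have h2 := d1_exp z
        unfold d1 at h2 ⊢
        simp only [neg_apply, add_apply, smul_apply, h2, smul_eq_mul]
        ring
      rw [e1, e2]
      linear_combination (-Real.exp z.1) * hL z)
  refine ⟨Y, hY, fun z => ?_⟩
  obtain ⟨h1, h2⟩ := prim_d hYd z
  rw [d1_fst, d1_snd] at h1
  rw [d2_fst, d2_snd] at h2
  constructor
  · linarith
  · linarith

/-- A criterion for a pair to be a hodograph pair. -/
theorem hodo_crit {X : ℝ × ℝ → ℝ} (hX : ContDiff ℝ ∞ X)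
    (hL : ∀ z, d1 (d1 X) z + d1 X z + d2 (d2 X) z = 0) {m : ℝ} (hm : 0 < m)
    (h1 : ∀ z, m ≤ d1 X z) {C : ℝ} (h2 : ∀ z, X z ≤ m * z.1 + C) : ∃ Y, Hodo X Y := by
  obtain ⟨Y, hY, hYd⟩ := exists_conj hX hL
  have hXd := diff_of hX
  -- the map (X, v)
  have hΘs : ContDiff ℝ ∞ fun z : ℝ × ℝ => (X z, z.2) := hX.prodMk contDiff_snd
  have hline : ∀ v, Function.Bijective fun t => X (t, v) := fun v =>
    bij_of_deriv hm (fun t => line1 hXd v t) (fun t => h1 (t, v))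
  have hΘ : Function.Bijective fun z : ℝ × ℝ => (X z, z.2) := by
    constructor
    · rintro ⟨t, v⟩ ⟨t', v'⟩ h
      simp only [Prod.mk.injEq] at h
      obtain ⟨ha, rfl⟩ := h
      rw [(hline v).1 ha]
    · rintro ⟨c, v⟩
      obtain ⟨t, ht⟩ := (hline v).2 c
      exact ⟨(t, v), by simp only at ht ⊢; rw [ht]⟩
  obtain ⟨Ξ, hl, hr⟩ := Function.bijective_iff_has_inverse.1 hΘ
  have hΞ : ContDiff ℝ ∞ Ξ := inv_smooth hΘs hl hr (hodo_inj hX contDiff_snd fun z => by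
    rw [d1_snd, d2_snd]
    have := h1 z
    have h3 : d1 X z ≠ 0 := by linarith
    simpa using h3)
  have hr1 : ∀ p, X (Ξ p) = p.1 := fun p => congrArg Prod.fst (hr p)
  have hr2 : ∀ p, (Ξ p).2 = p.2 := fun p => by
    have := congrArg Prod.snd (hr p)
    exact this
  have hG : ContDiff ℝ ∞ fun p => Y (Ξ p) := hY.comp hΞ
  have hGd : ∀ p, d2 (fun p => Y (Ξ p)) p ≤ -(m * Real.exp ((p.1 - C) / m)) := by
    intro p
    have c1 : d1 X (Ξ p) * d2 (fun z => (Ξ z).1) p + d2 X (Ξ p) * d2 (fun z => (Ξ z).2) p = 0 := by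
      have := chain_coord hX hΞ p (0, 1)
      have e : (fun z => X (Ξ z)) = fun z => z.1 := funext hr1
      rw [e, hasFDerivAt_fst.fderiv] at this
      exact this.symm
    have c2 : d2 (fun z => (Ξ z).2) p = 1 := by
      have e : (fun z => (Ξ z).2) = fun z => z.2 := funext hr2
      rw [e, d2_snd]
    have c3 : d2 (fun p => Y (Ξ p)) p =
        d1 Y (Ξ p) * d2 (fun z => (Ξ z).1) p + d2 Y (Ξ p) * d2 (fun z => (Ξ z).2) p :=
      chain_coord hY hΞ p (0, 1)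
    rw [c2] at c1 c3
    rw [(hYd _).1, (hYd _).2] at c3
    have hX1 := h1 (Ξ p)
    have hX1' : 0 < d1 X (Ξ p) := lt_of_lt_of_le hm hX1
    have c4 : d2 (fun z => (Ξ z).1) p = -(d2 X (Ξ p)) / d1 X (Ξ p) := by
      field_simp
      linarith
    have hw : (p.1 - C) / m ≤ (Ξ p).1 := by
      rw [div_le_iff₀ hm]
      have := h2 (Ξ p)
      rw [hr1] at this
      linarith
    have hexp : Real.exp ((p.1 - C) / m) ≤ Real.exp (Ξ p).1 := Real.exp_le_exp.2 hw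
    have hE : 0 < Real.exp (Ξ p).1 := Real.exp_pos _
    have hE' : 0 < Real.exp ((p.1 - C) / m) := Real.exp_pos _
    have h5 : Real.exp (Ξ p).1 * d2 X (Ξ p) * (-(d2 X (Ξ p)) / d1 X (Ξ p)) ≤ 0 := by
      have e : Real.exp (Ξ p).1 * d2 X (Ξ p) * (-(d2 X (Ξ p)) / d1 X (Ξ p)) =
        -(Real.exp (Ξ p).1 * (d2 X (Ξ p)) ^ 2 / d1 X (Ξ p)) := by ring
      rw [e]
      have : 0 ≤ Real.exp (Ξ p).1 * (d2 X (Ξ p)) ^ 2 / d1 X (Ξ p) := by positivity
      linarith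
    have h6 : m * Real.exp ((p.1 - C) / m) ≤ Real.exp (Ξ p).1 * d1 X (Ξ p) := by
      rw [mul_comm]
      exact mul_le_mul hexp hX1 hm.le hE.le
    rw [c3, c4]
    linarith
  have hline2 : ∀ c, Function.Bijective fun t => Y (Ξ (c, t)) := fun c =>
    bij_of_deriv_neg (m := m * Real.exp ((c - C) / m)) (mul_pos hm (Real.exp_pos _))
      (fun t => line2 (diff_of hG) c t) (fun t => hGd (c, t))
  refine ⟨Y, hX, hY, ⟨?_, ?_⟩, fun z => Or.inl (by linarith [h1 z]), fun z => (hYd z).1,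
    fun z => (hYd z).2⟩
  · intro z z' h
    simp only [Prod.mk.injEq] at h
    obtain ⟨hXX, hYY⟩ := h
    have e1 : z = Ξ (X z, z.2) := (hl z).symm
    have e2 : z' = Ξ (X z, z'.2) := by rw [hXX]; exact (hl z').symm
    have h3 : z.2 = z'.2 := by
      apply (hline2 (X z)).1
      show Y (Ξ (X z, z.2)) = Y (Ξ (X z, z'.2))
      rw [← e1, ← e2, hYY]
    rw [e1, e2, h3]
  · rintro ⟨c, y⟩
    obtain ⟨t, ht⟩ := (hline2 c).2 y
    refine ⟨Ξ (c, t), ?_⟩
    simp only at ht ⊢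
    rw [ht, hr1]

/-- finite combination of exponentials -/
noncomputable def Hs (T : Finset (ℝ × ℝ)) (c : ℝ × ℝ → ℝ) (z : ℝ × ℝ) : ℝ :=
  ∑ q ∈ T, c q * Real.exp (q.1 * z.1 + q.2 * z.2)

theorem smooth_Hs (T : Finset (ℝ × ℝ)) (c : ℝ × ℝ → ℝ) : ContDiff ℝ ∞ (Hs T c) := by
  unfold Hs
  exact ContDiff.sum fun q _ => contDiff_const.mul (Real.contDiff_exp.comp
    ((contDiff_const.mul contDiff_fst).add (contDiff_const.mul contDiff_snd)))

theorem hasFDerivAt_Hs (T : Finset (ℝ × ℝ)) (c : ℝ × ℝ → ℝ) (z : ℝ × ℝ) :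
    HasFDerivAt (Hs T c) (∑ q ∈ T, c q • (Real.exp (q.1 * z.1 + q.2 * z.2) •
      (q.1 • ContinuousLinearMap.fst ℝ ℝ ℝ + q.2 • ContinuousLinearMap.snd ℝ ℝ ℝ))) z := by
  unfold Hs
  apply HasFDerivAt.fun_sum
  intro q _
  have h1 : HasFDerivAt (fun z : ℝ × ℝ => q.1 * z.1 + q.2 * z.2)
      (q.1 • ContinuousLinearMap.fst ℝ ℝ ℝ + q.2 • ContinuousLinearMap.snd ℝ ℝ ℝ) z :=
    (hasFDerivAt_fst.const_mul q.1).add (hasFDerivAt_snd.const_mul q.2)
  exact h1.exp.const_mul (c q)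

theorem d1_Hs (T : Finset (ℝ × ℝ)) (c : ℝ × ℝ → ℝ) :
    d1 (Hs T c) = Hs T (fun q => q.1 * c q) := by
  funext z
  rw [HasFDerivAt.d1_eq (hasFDerivAt_Hs T c z)]
  simp only [sum_apply, smul_apply, add_apply, smul_eq_mul]
  unfold Hs
  apply Finset.sum_congr rfl
  intro q _
  simp
  ring

theorem d2_Hs (T : Finset (ℝ × ℝ)) (c : ℝ × ℝ → ℝ) :
    d2 (Hs T c) = Hs T (fun q => q.2 * c q) := by
  funext z
  rw [HasFDerivAt.d2_eq (hasFDerivAt_Hs T c z)]
  simp only [sum_apply, smul_apply, add_apply, smul_eq_mul]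
  unfold Hs
  apply Finset.sum_congr rfl
  intro q _
  simp
  ring

/-- admissible coefficients: positive coefficients, exponents on the circle `a² + a + b² = 0`
different from the origin -/
def Adm (T : Finset (ℝ × ℝ)) (c : ℝ × ℝ → ℝ) : Prop :=
  ∀ q ∈ T, 0 < c q ∧ q.1 ^ 2 + q.1 + q.2 ^ 2 = 0 ∧ q.1 ≠ 0

theorem Adm.neg {T : Finset (ℝ × ℝ)} {c : ℝ × ℝ → ℝ} (h : Adm T c) {q : ℝ × ℝ} (hq : q ∈ T) :
    q.1 < 0 := by
  obtain ⟨_, h2, h3⟩ := h q hq
  rcases lt_or_gt_of_ne h3 with h4 | h4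
  · exact h4
  · nlinarith [sq_nonneg q.2, sq_nonneg q.1]

/-- the function `X` of the family -/
noncomputable def XT (T : Finset (ℝ × ℝ)) (c : ℝ × ℝ → ℝ) (z : ℝ × ℝ) : ℝ :=
  z.1 - z.2 ^ 2 / 2 - ∑ q ∈ T, c q * Real.exp (q.1 * z.1 + q.2 * z.2)

theorem XT_eq (T : Finset (ℝ × ℝ)) (c : ℝ × ℝ → ℝ) :
    XT T c = fun z => (z.1 - z.2 ^ 2 / 2) - Hs T c z := rfl

theorem base_fd (z : ℝ × ℝ) : HasFDerivAt (fun z : ℝ × ℝ => z.1 - z.2 ^ 2 / 2)
    (ContinuousLinearMap.fst ℝ ℝ ℝ - z.2 • ContinuousLinearMap.snd ℝ ℝ ℝ) z := by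
  have h1 : HasDerivAt (fun t : ℝ => t ^ 2 / 2) z.2 z.2 := by
    have := (hasDerivAt_pow 2 z.2).div_const 2
    refine this.congr_deriv ?_
    push_cast
    ring
  exact hasFDerivAt_fst.sub (h1.comp_hasFDerivAt z hasFDerivAt_snd)

theorem base_diff : Differentiable ℝ (fun z : ℝ × ℝ => z.1 - z.2 ^ 2 / 2) := fun z =>
  (base_fd z).differentiableAt

theorem d1_base : d1 (fun z : ℝ × ℝ => z.1 - z.2 ^ 2 / 2) = fun _ => 1 := by
  funext z
  rw [HasFDerivAt.d1_eq (base_fd z)]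
  simp

theorem d2_base : d2 (fun z : ℝ × ℝ => z.1 - z.2 ^ 2 / 2) = fun z => -z.2 := by
  funext z
  rw [HasFDerivAt.d2_eq (base_fd z)]
  simp

theorem d1_XT (T : Finset (ℝ × ℝ)) (c : ℝ × ℝ → ℝ) :
    d1 (XT T c) = fun z => 1 - Hs T (fun q => q.1 * c q) z := by
  rw [XT_eq, d1_sub' base_diff (diff_of (smooth_Hs T c)), d1_base, d1_Hs]

theorem d2_XT (T : Finset (ℝ × ℝ)) (c : ℝ × ℝ → ℝ) :
    d2 (XT T c) = fun z => -z.2 - Hs T (fun q => q.2 * c q) z := by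
  rw [XT_eq, d2_sub' base_diff (diff_of (smooth_Hs T c)), d2_base, d2_Hs]

theorem d1_const (a : ℝ) : d1 (fun _ : ℝ × ℝ => a) = fun _ => 0 := by
  funext z
  rw [HasFDerivAt.d1_eq (hasFDerivAt_const a z)]
  rfl

theorem d11_XT (T : Finset (ℝ × ℝ)) (c : ℝ × ℝ → ℝ) :
    d1 (d1 (XT T c)) = fun z => 0 - Hs T (fun q => q.1 * (q.1 * c q)) z := by
  rw [d1_XT, d1_sub' (differentiable_const _) (diff_of (smooth_Hs T _)), d1_const, d1_Hs]

theorem d2_negsnd : d2 (fun z : ℝ × ℝ => -z.2) = fun _ => -1 := by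
  funext z
  have h : HasFDerivAt (fun z : ℝ × ℝ => -z.2) (-ContinuousLinearMap.snd ℝ ℝ ℝ) z :=
    hasFDerivAt_snd.neg
  rw [HasFDerivAt.d2_eq h]
  simp

theorem d22_XT (T : Finset (ℝ × ℝ)) (c : ℝ × ℝ → ℝ) :
    d2 (d2 (XT T c)) = fun z => -1 - Hs T (fun q => q.2 * (q.2 * c q)) z := by
  have hd : Differentiable ℝ (fun z : ℝ × ℝ => -z.2) := differentiable_snd.neg
  rw [d2_XT, d2_sub' hd (diff_of (smooth_Hs T _)), d2_negsnd, d2_Hs]

theorem smooth_XT (T : Finset (ℝ × ℝ)) (c : ℝ × ℝ → ℝ) : ContDiff ℝ ∞ (XT T c) := by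
  rw [XT_eq]
  exact (contDiff_fst.sub ((contDiff_snd.pow 2).div_const 2)).sub (smooth_Hs T c)

theorem Hs_nonneg {T : Finset (ℝ × ℝ)} {c : ℝ × ℝ → ℝ} (h : ∀ q ∈ T, 0 ≤ c q) (z : ℝ × ℝ) :
    0 ≤ Hs T c z :=
  Finset.sum_nonneg fun q hq => mul_nonneg (h q hq) (Real.exp_pos _).le

theorem Hs_nonpos {T : Finset (ℝ × ℝ)} {c : ℝ × ℝ → ℝ} (h : ∀ q ∈ T, c q ≤ 0) (z : ℝ × ℝ) :
    Hs T c z ≤ 0 :=
  Finset.sum_nonpos fun q hq => mul_nonpos_of_nonpos_of_nonneg (h q hq) (Real.exp_pos _).le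

theorem hodo_XT {T : Finset (ℝ × ℝ)} {c : ℝ × ℝ → ℝ} (h : Adm T c) : ∃ Y, Hodo (XT T c) Y := by
  refine hodo_crit (smooth_XT T c) ?_ one_pos ?_ (C := 0) ?_
  · intro z
    rw [d11_XT, d1_XT, d22_XT]
    show (0 - Hs T (fun q => q.1 * (q.1 * c q)) z) + (1 - Hs T (fun q => q.1 * c q) z) +
      (-1 - Hs T (fun q => q.2 * (q.2 * c q)) z) = 0
    have e : Hs T (fun q => q.1 * (q.1 * c q)) z + Hs T (fun q => q.1 * c q) z +
        Hs T (fun q => q.2 * (q.2 * c q)) z = 0 := by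
      unfold Hs
      rw [← Finset.sum_add_distrib, ← Finset.sum_add_distrib]
      apply Finset.sum_eq_zero
      intro q hq
      linear_combination c q * Real.exp (q.1 * z.1 + q.2 * z.2) * (h q hq).2.1
    linarith
  · intro z
    rw [d1_XT]
    have := Hs_nonpos (T := T) (c := fun q => q.1 * c q) (fun q hq =>
      mul_nonpos_of_nonpos_of_nonneg (h.neg hq).le (h q hq).1.le) z
    show 1 ≤ 1 - Hs T (fun q => q.1 * c q) z
    linarith
  · intro z
    have := Hs_nonneg (T := T) (c := c) (fun q hq => (h q hq).1.le) z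
    show z.1 - z.2 ^ 2 / 2 - Hs T c z ≤ 1 * z.1 + 0
    nlinarith [sq_nonneg z.2]

/-- decay as `w → ∞` -/
theorem tendsto_Hs {T : Finset (ℝ × ℝ)} (c : ℝ × ℝ → ℝ) (h : ∀ q ∈ T, q.1 < 0) (v r : ℝ) :
    Tendsto (fun t => Hs T c (t + r, v)) atTop (𝓝 0) := by
  unfold Hs
  have e : (0 : ℝ) = ∑ q ∈ T, c q * 0 := by simp
  rw [e]
  apply tendsto_finsetSum
  intro q hq
  apply Tendsto.const_mul
  apply Real.tendsto_exp_atBot.comp
  have h1 : Tendsto (fun t : ℝ => q.1 * (t + r)) atTop atBot :=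
    (tendsto_atTop_add_const_right atTop r tendsto_id).const_mul_atTop_of_neg (h q hq)
  exact tendsto_atBot_add_const_right atTop (q.2 * v) h1

/-- linear independence of exponentials -/
theorem exp_indep (S : Finset (ℝ × ℝ)) (g : ℝ × ℝ → ℝ) (h : ∀ z, Hs S g z = 0) :
    ∀ q ∈ S, g q = 0 := by
  let χ : ℝ × ℝ → (Multiplicative (ℝ × ℝ) →* ℝ) := fun q =>
    { toFun := fun z => Real.exp (q.1 * (Multiplicative.toAdd z).1 +
        q.2 * (Multiplicative.toAdd z).2)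
      map_one' := by simp
      map_mul' := fun x y => by
        rw [← Real.exp_add]
        simp only [toAdd_mul, Prod.fst_add, Prod.snd_add]
        ring_nf }
  have hχ : Function.Injective χ := by
    intro q q' hqq
    have h1 := DFunLike.congr_fun hqq (Multiplicative.ofAdd ((1 : ℝ), (0 : ℝ)))
    have h2 := DFunLike.congr_fun hqq (Multiplicative.ofAdd ((0 : ℝ), (1 : ℝ)))
    have h1' : Real.exp (q.1 * 1 + q.2 * 0) = Real.exp (q'.1 * 1 + q'.2 * 0) := h1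
    have h2' : Real.exp (q.1 * 0 + q.2 * 1) = Real.exp (q'.1 * 0 + q'.2 * 1) := h2
    rw [Real.exp_eq_exp] at h1' h2'
    ext <;> linarith
  have hind := (linearIndependent_monoidHom (Multiplicative (ℝ × ℝ)) ℝ).comp χ hχ
  rw [linearIndependent_iff'] at hind
  apply hind S g
  funext z
  have := h (Multiplicative.toAdd z)
  simp only [Finset.sum_apply, Pi.smul_apply, Function.comp, smul_eq_mul, Pi.zero_apply]
  exact this

theorem Hs_inj {T T' : Finset (ℝ × ℝ)} {c c' : ℝ × ℝ → ℝ} (hc : ∀ q ∈ T, 0 < c q)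
    (hc' : ∀ q ∈ T', 0 < c' q) (h : ∀ z, Hs T c z = Hs T' c' z) :
    T' = T ∧ ∀ q ∈ T, c' q = c q := by
  classical
  set g : ℝ × ℝ → ℝ := fun q => (if q ∈ T then c q else 0) - (if q ∈ T' then c' q else 0) with hg
  have hsum : ∀ z, Hs (T ∪ T') g z = 0 := by
    intro z
    have e1 : Hs (T ∪ T') (fun q => if q ∈ T then c q else 0) z = Hs T c z := by
      unfold Hs
      rw [← Finset.sum_subset (Finset.subset_union_left (s₁ := T) (s₂ := T'))]
      · apply Finset.sum_congr rfl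
        intro q hq
        simp [hq]
      · intro q _ hq
        simp [hq]
    have e2 : Hs (T ∪ T') (fun q => if q ∈ T' then c' q else 0) z = Hs T' c' z := by
      unfold Hs
      rw [← Finset.sum_subset (Finset.subset_union_right (s₁ := T) (s₂ := T'))]
      · apply Finset.sum_congr rfl
        intro q hq
        simp [hq]
      · intro q _ hq
        simp [hq]
    have e3 : Hs (T ∪ T') g z = Hs (T ∪ T') (fun q => if q ∈ T then c q else 0) z -
        Hs (T ∪ T') (fun q => if q ∈ T' then c' q else 0) z := by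
      unfold Hs
      rw [← Finset.sum_sub_distrib]
      apply Finset.sum_congr rfl
      intro q _
      rw [hg]
      ring
    rw [e3, e1, e2, h z, sub_self]
  have key := exp_indep (T ∪ T') g hsum
  have hT : ∀ q ∈ T, q ∈ T' ∧ c' q = c q := by
    intro q hq
    have h1 := key q (Finset.mem_union_left _ hq)
    rw [hg] at h1
    simp only [hq, if_true] at h1
    by_cases hq' : q ∈ T'
    · simp only [hq', if_true] at h1
      exact ⟨hq', by linarith⟩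
    · simp only [hq', if_false] at h1
      have := hc q hq
      linarith
  have hT' : ∀ q ∈ T', q ∈ T := by
    intro q hq
    have h1 := key q (Finset.mem_union_right _ hq)
    rw [hg] at h1
    simp only [hq, if_true] at h1
    by_contra hq'
    simp only [hq', if_false] at h1
    have := hc' q hq
    linarith
  exact ⟨Finset.Subset.antisymm hT' fun q hq => (hT q hq).1, fun q hq => (hT q hq).2⟩


/-! ### the symmetries of the equation -/

theorem d1_aff {f : ℝ × ℝ → ℝ} (hf : Differentiable ℝ f) (l m s t : ℝ) :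
    d1 (fun x : ℝ × ℝ => f (l * x.1 + s, m * x.2 + t)) =
      fun x => l * d1 f (l * x.1 + s, m * x.2 + t) := by
  funext x
  have h1 : HasFDerivAt (fun x : ℝ × ℝ => (l * x.1 + s, m * x.2 + t))
      ((l • ContinuousLinearMap.fst ℝ ℝ ℝ).prod (m • ContinuousLinearMap.snd ℝ ℝ ℝ)) x :=
    ((hasFDerivAt_fst.const_mul l).add_const s).prodMk ((hasFDerivAt_snd.const_mul m).add_const t)
  have h2 : HasFDerivAt (fun x : ℝ × ℝ => f (l * x.1 + s, m * x.2 + t)) _ x :=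
    (hf (l * x.1 + s, m * x.2 + t)).hasFDerivAt.comp x h1
  rw [HasFDerivAt.d1_eq h2, ContinuousLinearMap.comp_apply, fderiv_eq]
  simp
  ring

theorem d2_aff {f : ℝ × ℝ → ℝ} (hf : Differentiable ℝ f) (l m s t : ℝ) :
    d2 (fun x : ℝ × ℝ => f (l * x.1 + s, m * x.2 + t)) =
      fun x => m * d2 f (l * x.1 + s, m * x.2 + t) := by
  funext x
  have h1 : HasFDerivAt (fun x : ℝ × ℝ => (l * x.1 + s, m * x.2 + t))
      ((l • ContinuousLinearMap.fst ℝ ℝ ℝ).prod (m • ContinuousLinearMap.snd ℝ ℝ ℝ)) x :=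
    ((hasFDerivAt_fst.const_mul l).add_const s).prodMk ((hasFDerivAt_snd.const_mul m).add_const t)
  have h2 : HasFDerivAt (fun x : ℝ × ℝ => f (l * x.1 + s, m * x.2 + t)) _ x :=
    (hf (l * x.1 + s, m * x.2 + t)).hasFDerivAt.comp x h1
  rw [HasFDerivAt.d2_eq h2, ContinuousLinearMap.comp_apply, fderiv_eq]
  simp
  ring

theorem d1_swp {f : ℝ × ℝ → ℝ} (hf : Differentiable ℝ f) (l m s t : ℝ) :
    d1 (fun x : ℝ × ℝ => f (l * x.2 + s, m * x.1 + t)) =
      fun x => m * d2 f (l * x.2 + s, m * x.1 + t) := by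
  funext x
  have h1 : HasFDerivAt (fun x : ℝ × ℝ => (l * x.2 + s, m * x.1 + t))
      ((l • ContinuousLinearMap.snd ℝ ℝ ℝ).prod (m • ContinuousLinearMap.fst ℝ ℝ ℝ)) x :=
    ((hasFDerivAt_snd.const_mul l).add_const s).prodMk ((hasFDerivAt_fst.const_mul m).add_const t)
  have h2 : HasFDerivAt (fun x : ℝ × ℝ => f (l * x.2 + s, m * x.1 + t)) _ x :=
    (hf (l * x.2 + s, m * x.1 + t)).hasFDerivAt.comp x h1
  rw [HasFDerivAt.d1_eq h2, ContinuousLinearMap.comp_apply, fderiv_eq]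
  simp
  ring

theorem d2_swp {f : ℝ × ℝ → ℝ} (hf : Differentiable ℝ f) (l m s t : ℝ) :
    d2 (fun x : ℝ × ℝ => f (l * x.2 + s, m * x.1 + t)) =
      fun x => l * d1 f (l * x.2 + s, m * x.1 + t) := by
  funext x
  have h1 : HasFDerivAt (fun x : ℝ × ℝ => (l * x.2 + s, m * x.1 + t))
      ((l • ContinuousLinearMap.snd ℝ ℝ ℝ).prod (m • ContinuousLinearMap.fst ℝ ℝ ℝ)) x :=
    ((hasFDerivAt_snd.const_mul l).add_const s).prodMk ((hasFDerivAt_fst.const_mul m).add_const t)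
  have h2 : HasFDerivAt (fun x : ℝ × ℝ => f (l * x.2 + s, m * x.1 + t)) _ x :=
    (hf (l * x.2 + s, m * x.1 + t)).hasFDerivAt.comp x h1
  rw [HasFDerivAt.d2_eq h2, ContinuousLinearMap.comp_apply, fderiv_eq]
  simp
  ring

/-- the polynomial part -/
theorem d1_lin (k a b c d : ℝ) {g : ℝ × ℝ → ℝ} (hg : Differentiable ℝ g) :
    d1 (fun x : ℝ × ℝ => k * g x + (a + b * x.1 + c * x.2 + d * (x.1 * x.2))) =
      fun x => k * d1 g x + (b + d * x.2) := by
  funext x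
  have h1 : HasFDerivAt (fun x : ℝ × ℝ => k * g x + (a + b * x.1 + c * x.2 + d * (x.1 * x.2)))
      (k • fderiv ℝ g x + (b • ContinuousLinearMap.fst ℝ ℝ ℝ + c • ContinuousLinearMap.snd ℝ ℝ ℝ +
        d • (x.1 • ContinuousLinearMap.snd ℝ ℝ ℝ + x.2 • ContinuousLinearMap.fst ℝ ℝ ℝ))) x :=
    ((hg x).hasFDerivAt.const_mul k).add ((((hasFDerivAt_fst.const_mul b).const_add a).add
      (hasFDerivAt_snd.const_mul c)).add ((hasFDerivAt_fst.mul hasFDerivAt_snd).const_mul d))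
  rw [HasFDerivAt.d1_eq h1]
  simp only [add_apply, smul_apply, smul_eq_mul]
  simp [d1]

theorem d2_lin (k a b c d : ℝ) {g : ℝ × ℝ → ℝ} (hg : Differentiable ℝ g) :
    d2 (fun x : ℝ × ℝ => k * g x + (a + b * x.1 + c * x.2 + d * (x.1 * x.2))) =
      fun x => k * d2 g x + (c + d * x.1) := by
  funext x
  have h1 : HasFDerivAt (fun x : ℝ × ℝ => k * g x + (a + b * x.1 + c * x.2 + d * (x.1 * x.2)))
      (k • fderiv ℝ g x + (b • ContinuousLinearMap.fst ℝ ℝ ℝ + c • ContinuousLinearMap.snd ℝ ℝ ℝ +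
        d • (x.1 • ContinuousLinearMap.snd ℝ ℝ ℝ + x.2 • ContinuousLinearMap.fst ℝ ℝ ℝ))) x :=
    ((hg x).hasFDerivAt.const_mul k).add ((((hasFDerivAt_fst.const_mul b).const_add a).add
      (hasFDerivAt_snd.const_mul c)).add ((hasFDerivAt_fst.mul hasFDerivAt_snd).const_mul d))
  rw [HasFDerivAt.d2_eq h1]
  simp only [add_apply, smul_apply, smul_eq_mul]
  simp [d2]

/-- `u'` is obtained from `u` by one of the known symmetries of the equation: adding
`a + b x₁ + c x₂ + d x₁ x₂`, scaling and translating the variables, and swapping them. -/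
def Equivalent (u u' : ℝ × ℝ → ℝ) : Prop :=
  ∃ l m s t a b c d : ℝ, l ≠ 0 ∧ m ≠ 0 ∧
    ((∀ x : ℝ × ℝ, u' x = |l * m|⁻¹ * u (l * x.1 + s, m * x.2 + t) +
        (a + b * x.1 + c * x.2 + d * (x.1 * x.2))) ∨
     (∀ x : ℝ × ℝ, u' x = |l * m|⁻¹ * u (l * x.2 + s, m * x.1 + t) +
        (a + b * x.1 + c * x.2 + d * (x.1 * x.2))))

theorem diff_aff {f : ℝ × ℝ → ℝ} (hf : Differentiable ℝ f) (l m s t : ℝ) :
    Differentiable ℝ (fun x : ℝ × ℝ => f (l * x.1 + s, m * x.2 + t)) :=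
  hf.comp (((differentiable_fst.const_mul l).add_const s).prodMk
    ((differentiable_snd.const_mul m).add_const t))

theorem diff_swp {f : ℝ × ℝ → ℝ} (hf : Differentiable ℝ f) (l m s t : ℝ) :
    Differentiable ℝ (fun x : ℝ × ℝ => f (l * x.2 + s, m * x.1 + t)) :=
  hf.comp (((differentiable_snd.const_mul l).add_const s).prodMk
    ((differentiable_fst.const_mul m).add_const t))

theorem d1_add_lin (k b d : ℝ) {g : ℝ × ℝ → ℝ} (hg : Differentiable ℝ g) :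
    d1 (fun x : ℝ × ℝ => k * g x + (b + d * x.2)) = fun x => k * d1 g x := by
  have h := d1_lin k b 0 d 0 hg
  have e : (fun x : ℝ × ℝ => k * g x + (b + 0 * x.1 + d * x.2 + 0 * (x.1 * x.2))) =
      fun x => k * g x + (b + d * x.2) := by
    funext x; ring
  rw [e] at h
  rw [h]
  funext x
  ring

theorem d2_add_lin (k b d : ℝ) {g : ℝ × ℝ → ℝ} (hg : Differentiable ℝ g) :
    d2 (fun x : ℝ × ℝ => k * g x + (b + d * x.2)) = fun x => k * d2 g x + d := by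
  have h := d2_lin k b 0 d 0 hg
  have e : (fun x : ℝ × ℝ => k * g x + (b + 0 * x.1 + d * x.2 + 0 * (x.1 * x.2))) =
      fun x => k * g x + (b + d * x.2) := by
    funext x; ring
  rw [e] at h
  rw [h]
  funext x
  ring

theorem diff_d1' {f : ℝ × ℝ → ℝ} (hf : ContDiff ℝ 2 f) : Differentiable ℝ f :=
  hf.differentiable (by norm_num)

/-- second derivatives of `u'` in the unswapped case -/
theorem sym_aff {u u' : ℝ × ℝ → ℝ} (hu : ContDiff ℝ 2 u) {l m s t a b c d : ℝ}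
    (h : ∀ x : ℝ × ℝ, u' x = |l * m|⁻¹ * u (l * x.1 + s, m * x.2 + t) +
        (a + b * x.1 + c * x.2 + d * (x.1 * x.2))) :
    (∀ x, d1 (d1 u') x = |l * m|⁻¹ * l ^ 2 * d1 (d1 u) (l * x.1 + s, m * x.2 + t)) ∧
    (∀ x, d2 (d1 u') x = |l * m|⁻¹ * (l * m) * d2 (d1 u) (l * x.1 + s, m * x.2 + t) + d) := by
  have hd := diff_d1' hu
  have e : u' = fun x => |l * m|⁻¹ * (fun x : ℝ × ℝ => u (l * x.1 + s, m * x.2 + t)) x +
        (a + b * x.1 + c * x.2 + d * (x.1 * x.2)) := funext h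
  have hd1 := diff_d1 hu
  have e1 : d1 u' = fun x => (|l * m|⁻¹ * l) * (fun x : ℝ × ℝ => d1 u (l * x.1 + s, m * x.2 + t)) x +
      (b + d * x.2) := by
    rw [e, d1_lin _ _ _ _ _ (diff_aff hd l m s t), d1_aff hd]
    funext x
    ring
  constructor
  · intro x
    rw [e1, d1_add_lin _ _ _ (diff_aff hd1 l m s t), d1_aff hd1]
    ring
  · intro x
    rw [e1, d2_add_lin _ _ _ (diff_aff hd1 l m s t), d2_aff hd1]
    ring

/-- second derivatives of `u'` in the swapped case -/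
theorem sym_swp {u u' : ℝ × ℝ → ℝ} (hu : ContDiff ℝ 2 u) {l m s t a b c d : ℝ}
    (h : ∀ x : ℝ × ℝ, u' x = |l * m|⁻¹ * u (l * x.2 + s, m * x.1 + t) +
        (a + b * x.1 + c * x.2 + d * (x.1 * x.2))) :
    (∀ x, d1 (d1 u') x = |l * m|⁻¹ * m ^ 2 * d2 (d2 u) (l * x.2 + s, m * x.1 + t)) ∧
    (∀ x, d2 (d1 u') x = |l * m|⁻¹ * (l * m) * d2 (d1 u) (l * x.2 + s, m * x.1 + t) + d) := by
  have hd := diff_d1' hu
  have e : u' = fun x => |l * m|⁻¹ * (fun x : ℝ × ℝ => u (l * x.2 + s, m * x.1 + t)) x +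
        (a + b * x.1 + c * x.2 + d * (x.1 * x.2)) := funext h
  have hd2 := diff_d2 hu
  have e1 : d1 u' = fun x => (|l * m|⁻¹ * m) * (fun x : ℝ × ℝ => d2 u (l * x.2 + s, m * x.1 + t)) x +
      (b + d * x.2) := by
    rw [e, d1_lin _ _ _ _ _ (diff_swp hd l m s t), d1_swp hd]
    funext x
    ring
  constructor
  · intro x
    rw [e1, d1_add_lin _ _ _ (diff_swp hd2 l m s t), d1_swp hd2]
    ring
  · intro x
    rw [e1, d2_add_lin _ _ _ (diff_swp hd2 l m s t), d2_swp hd2]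
    simp only
    rw [d12_comm hu]
    ring


/-- `u` is a solution belonging to the pair `(X, Y)`: at the point `(X (w, v), Y (w, v))` one has
`u₁₁ = e^w` and `u₁₂ = v`. -/
def SolOf (X Y u : ℝ × ℝ → ℝ) : Prop :=
  ∀ z, d1 (d1 u) (X z, Y z) = Real.exp z.1 ∧ d2 (d1 u) (X z, Y z) = z.2

theorem sign_cases {l m : ℝ} (hl : l ≠ 0) (hm : m ≠ 0) :
    |l * m|⁻¹ * (l * m) = 1 ∨ |l * m|⁻¹ * (l * m) = -1 := by
  have hlm : l * m ≠ 0 := mul_ne_zero hl hm
  rcases lt_or_gt_of_ne hlm with h | h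
  · right
    rw [abs_of_neg h]
    field_simp
  · left
    rw [abs_of_pos h]
    field_simp

theorem transfer_aff {X Y X' Y' u u' : ℝ × ℝ → ℝ} (h' : Hodo X' Y') (hu : IsEntire u)
    (hX : SolOf X Y u) (hX' : SolOf X' Y' u') {l m s t a b c d : ℝ} (hl : l ≠ 0) (hm : m ≠ 0)
    (he : ∀ x : ℝ × ℝ, u' x = |l * m|⁻¹ * u (l * x.1 + s, m * x.2 + t) +
        (a + b * x.1 + c * x.2 + d * (x.1 * x.2))) :
    ∃ ρ σ : ℝ, (σ = 1 ∨ σ = -1) ∧ ∀ z : ℝ × ℝ, l * X' (z.1 + ρ, σ * z.2 + d) + s = X z := by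
  obtain ⟨e1, e2⟩ := sym_aff hu.c2 he
  have hk : 0 < |l * m|⁻¹ * l ^ 2 := by
    have h1 : 0 < |l * m| := abs_pos.2 (mul_ne_zero hl hm)
    have h2 : 0 < l ^ 2 := by positivity
    positivity
  refine ⟨Real.log (|l * m|⁻¹ * l ^ 2), |l * m|⁻¹ * (l * m), sign_cases hl hm, fun z => ?_⟩
  obtain ⟨z', hz'⟩ := h'.bij.2 ((X z - s) / l, (Y z - t) / m)
  have hz1 : X' z' = (X z - s) / l := congrArg Prod.fst hz'
  have hz2 : Y' z' = (Y z - t) / m := congrArg Prod.snd hz'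
  have hp : (l * ((X z - s) / l) + s, m * ((Y z - t) / m) + t) = (X z, Y z) := by
    rw [mul_div_cancel₀ _ hl, mul_div_cancel₀ _ hm]
    ext <;> simp
  have a1 := e1 ((X z - s) / l, (Y z - t) / m)
  have a2 := e2 ((X z - s) / l, (Y z - t) / m)
  simp only [hp] at a1 a2
  rw [(hX z).1, ← hz1, ← hz2, (hX' z').1] at a1
  rw [(hX z).2, ← hz1, ← hz2, (hX' z').2] at a2
  have a3 : z'.1 = z.1 + Real.log (|l * m|⁻¹ * l ^ 2) := by
    rw [← Real.exp_eq_exp, Real.exp_add, Real.exp_log hk, a1]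
    ring
  have a4 : z' = (z.1 + Real.log (|l * m|⁻¹ * l ^ 2), |l * m|⁻¹ * (l * m) * z.2 + d) := by
    ext
    · exact a3
    · exact a2
  rw [← a4, hz1, mul_div_cancel₀ _ hl]
  ring

theorem transfer_swp {X Y X' Y' u u' : ℝ × ℝ → ℝ} (h' : Hodo X' Y') (hu : IsEntire u)
    (hX : SolOf X Y u) (hX' : SolOf X' Y' u') {l m s t a b c d : ℝ} (hl : l ≠ 0) (hm : m ≠ 0)
    (he : ∀ x : ℝ × ℝ, u' x = |l * m|⁻¹ * u (l * x.2 + s, m * x.1 + t) +
        (a + b * x.1 + c * x.2 + d * (x.1 * x.2))) :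
    ∃ ρ σ : ℝ, (σ = 1 ∨ σ = -1) ∧ ∀ z : ℝ × ℝ, l * Y' (-z.1 + ρ, σ * z.2 + d) + s = X z := by
  obtain ⟨e1, e2⟩ := sym_swp hu.c2 he
  have hk : 0 < |l * m|⁻¹ * m ^ 2 := by
    have h1 : 0 < |l * m| := abs_pos.2 (mul_ne_zero hl hm)
    have h2 : 0 < m ^ 2 := by positivity
    positivity
  refine ⟨Real.log (|l * m|⁻¹ * m ^ 2), |l * m|⁻¹ * (l * m), sign_cases hl hm, fun z => ?_⟩
  obtain ⟨z', hz'⟩ := h'.bij.2 ((Y z - t) / m, (X z - s) / l)
  have hz1 : X' z' = (Y z - t) / m := congrArg Prod.fst hz'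
  have hz2 : Y' z' = (X z - s) / l := congrArg Prod.snd hz'
  have hp : (l * ((X z - s) / l) + s, m * ((Y z - t) / m) + t) = (X z, Y z) := by
    rw [mul_div_cancel₀ _ hl, mul_div_cancel₀ _ hm]
    ext <;> simp
  have a1 := e1 ((Y z - t) / m, (X z - s) / l)
  have a2 := e2 ((Y z - t) / m, (X z - s) / l)
  simp only [hp] at a1 a2
  rw [hu.d22, (hX z).1, ← hz1, ← hz2, (hX' z').1, ← Real.exp_neg] at a1
  rw [(hX z).2, ← hz1, ← hz2, (hX' z').2] at a2
  have a3 : z'.1 = -z.1 + Real.log (|l * m|⁻¹ * m ^ 2) := by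
    rw [← Real.exp_eq_exp, Real.exp_add, Real.exp_log hk, a1]
    ring
  have a4 : z' = (-z.1 + Real.log (|l * m|⁻¹ * m ^ 2), |l * m|⁻¹ * (l * m) * z.2 + d) := by
    ext
    · exact a3
    · exact a2
  rw [← a4, hz2, mul_div_cancel₀ _ hl]
  ring

theorem d1_XT_ge {T : Finset (ℝ × ℝ)} {c : ℝ × ℝ → ℝ} (h : Adm T c) (z : ℝ × ℝ) :
    1 ≤ d1 (XT T c) z := by
  rw [d1_XT]
  have := Hs_nonpos (T := T) (c := fun q => q.1 * c q) (fun q hq =>
    mul_nonpos_of_nonpos_of_nonneg (h.neg hq).le (h q hq).1.le) z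
  show 1 ≤ 1 - Hs T (fun q => q.1 * c q) z
  linarith

/-- the derivative `X_v` tends to `-v` -/
theorem tendsto_d2_XT {T : Finset (ℝ × ℝ)} {c : ℝ × ℝ → ℝ} (h : Adm T c) (v : ℝ) :
    Tendsto (fun t => d2 (XT T c) (t, v)) atTop (𝓝 (-v)) := by
  rw [d2_XT]
  have h1 := tendsto_Hs (fun q => q.2 * c q) (fun q hq => h.neg hq) v 0
  have h2 : Tendsto (fun t : ℝ => -v - Hs T (fun q => q.2 * c q) (t + 0, v)) atTop (𝓝 (-v - 0)) :=
    tendsto_const_nhds.sub h1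
  simpa using h2

theorem no_swap {T T' : Finset (ℝ × ℝ)} {c c' : ℝ × ℝ → ℝ} (hT : Adm T c) (hT' : Adm T' c')
    {Y' : ℝ × ℝ → ℝ} (h' : Hodo (XT T' c') Y') {l s d ρ σ : ℝ} (hl : l ≠ 0)
    (hσ : σ = 1 ∨ σ = -1)
    (he : ∀ z : ℝ × ℝ, l * Y' (-z.1 + ρ, σ * z.2 + d) + s = XT T c z) : False := by
  have hY' := diff_of h'.smY
  have e1 : XT T c = fun z : ℝ × ℝ => l * (fun z : ℝ × ℝ => Y' ((-1) * z.1 + ρ, σ * z.2 + d)) z +
      (s + 0 * z.2) := by
    funext z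
    rw [← he z]
    simp only [neg_mul, one_mul, zero_mul, add_zero]
  have e2 : ∀ z : ℝ × ℝ, d2 (XT T c) z = l * (σ * d2 Y' ((-1) * z.1 + ρ, σ * z.2 + d)) := by
    intro z
    rw [e1, d2_add_lin _ _ _ (diff_aff hY' (-1) σ ρ d), d2_aff hY']
    ring
  have hneg : ∀ z, d2 Y' z < 0 := by
    intro z
    rw [h'.eq2]
    have h1 := d1_XT_ge hT' z
    have h2 := Real.exp_pos z.1
    nlinarith
  have hlσ : l * σ ≠ 0 := by
    refine mul_ne_zero hl ?_
    rcases hσ with h | h <;> rw [h] <;> norm_num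
  rcases lt_or_gt_of_ne hlσ with h | h
  · -- `X_v > 0` everywhere
    have h1 : ∀ t, 0 < d2 (XT T c) (t, 1) := by
      intro t
      rw [e2]
      have := hneg ((-1) * t + ρ, σ * 1 + d)
      have h3 : l * (σ * d2 Y' ((-1) * (t, (1 : ℝ)).1 + ρ, σ * (t, (1 : ℝ)).2 + d)) =
        (l * σ) * d2 Y' ((-1) * t + ρ, σ * 1 + d) := by ring
      rw [h3]
      exact mul_pos_of_neg_of_neg h this
    have h2 := tendsto_d2_XT hT 1
    have h3 := ge_of_tendsto' h2 (fun t => (h1 t).le)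
    linarith
  · have h1 : ∀ t, d2 (XT T c) (t, -1) < 0 := by
      intro t
      rw [e2]
      have := hneg ((-1) * t + ρ, σ * (-1) + d)
      have h3 : l * (σ * d2 Y' ((-1) * (t, (-1 : ℝ)).1 + ρ, σ * (t, (-1 : ℝ)).2 + d)) =
        (l * σ) * d2 Y' ((-1) * t + ρ, σ * (-1) + d) := by ring
      rw [h3]
      exact mul_neg_of_pos_of_neg h this
    have h2 := tendsto_d2_XT hT (-1)
    have h3 := le_of_tendsto' h2 (fun t => (h1 t).le)
    linarith

theorem lin_zero {A K : ℝ} (h : Tendsto (fun w : ℝ => A * w + K) atTop (𝓝 0)) : A = 0 ∧ K = 0 := by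
  have h1 : Tendsto (fun w : ℝ => A * (w + 1) + K) atTop (𝓝 0) :=
    h.comp (tendsto_atTop_add_const_right atTop 1 tendsto_id)
  have h2 := h1.sub h
  have e : (fun w : ℝ => A * (w + 1) + K - (A * w + K)) = fun _ => A := by
    funext w; ring
  rw [e, sub_zero] at h2
  have hA : A = 0 := tendsto_nhds_unique tendsto_const_nhds h2
  subst hA
  have e2 : (fun w : ℝ => 0 * w + K) = fun _ => K := by
    funext w; ring
  rw [e2] at h
  exact ⟨rfl, tendsto_nhds_unique tendsto_const_nhds h⟩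

/-- the mirror map `(a, b) ↦ (a, -b)` -/
def mir (q : ℝ × ℝ) : ℝ × ℝ := (q.1, -q.2)

theorem mir_mir (q : ℝ × ℝ) : mir (mir q) = q := by
  unfold mir; simp

theorem mir_inj : Function.Injective mir := fun x y h => by
  rw [← mir_mir x, h, mir_mir]

theorem rigid_aff {T T' : Finset (ℝ × ℝ)} {c c' : ℝ × ℝ → ℝ} (hT : Adm T c) (hT' : Adm T' c')
    {l s d ρ σ : ℝ} (hσ : σ = 1 ∨ σ = -1)
    (he : ∀ z : ℝ × ℝ, l * XT T' c' (z.1 + ρ, σ * z.2 + d) + s = XT T c z) :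
    (T' = T ∧ ∀ q ∈ T, c' q * Real.exp (q.1 * ρ) = c q) ∨
    (T' = T.image mir ∧ ∀ q ∈ T, c' (mir q) * Real.exp (q.1 * ρ) = c q) := by
  classical
  have hσ2 : σ ^ 2 = 1 := by rcases hσ with h | h <;> rw [h] <;> norm_num
  have key : ∀ v : ℝ, l - 1 = 0 ∧ l * (ρ - (σ * v + d) ^ 2 / 2) + s + v ^ 2 / 2 = 0 := by
    intro v
    apply lin_zero
    have h1 := (tendsto_Hs c' (fun q hq => hT'.neg hq) (σ * v + d) ρ).const_mul l
    have h2 := tendsto_Hs c (fun q hq => hT.neg hq) v 0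
    have h3 := h1.sub h2
    rw [mul_zero, sub_zero] at h3
    refine h3.congr fun w => ?_
    have h4 := he (w, v)
    unfold XT at h4
    simp only at h4
    have h5 : Hs T' c' (w + ρ, σ * v + d) =
      ∑ q ∈ T', c' q * Real.exp (q.1 * (w + ρ) + q.2 * (σ * v + d)) := rfl
    have h6 : Hs T c (w + 0, v) = ∑ q ∈ T, c q * Real.exp (q.1 * w + q.2 * v) := by
      rw [add_zero]; rfl
    rw [h5, h6]
    linarith
  have hl : l = 1 := by linarith [(key 0).1]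
  subst hl
  have k0 := (key 0).2
  have k1 := (key 1).2
  have hd : d = 0 := by
    have h1 : σ * d = 0 := by nlinarith
    rcases hσ with h | h
    · rw [h, one_mul] at h1; exact h1
    · rw [h] at h1; linarith
  subst hd
  have hs : s = -ρ := by
    have : ρ + s = 0 := by nlinarith
    linarith
  have hH : ∀ z : ℝ × ℝ, Hs T' c' (z.1 + ρ, σ * z.2) = Hs T c z := by
    intro z
    have h4 := he z
    unfold XT at h4
    simp only [add_zero] at h4
    have h5 : Hs T' c' (z.1 + ρ, σ * z.2) =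
      ∑ q ∈ T', c' q * Real.exp (q.1 * (z.1 + ρ) + q.2 * (σ * z.2)) := rfl
    have h6 : Hs T c z = ∑ q ∈ T, c q * Real.exp (q.1 * z.1 + q.2 * z.2) := rfl
    rw [h5, h6]
    have h7 : (σ * z.2) ^ 2 = z.2 ^ 2 := by rw [mul_pow, hσ2, one_mul]
    rw [h7] at h4
    linarith
  rcases hσ with h | h
  · left
    subst h
    have h8 : ∀ z, Hs T c z = Hs T' (fun q => c' q * Real.exp (q.1 * ρ)) z := by
      intro z
      rw [← hH z]
      unfold Hs
      apply Finset.sum_congr rfl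
      intro q _
      rw [mul_assoc, ← Real.exp_add]
      congr 2
      ring
    obtain ⟨a1, a2⟩ := Hs_inj (fun q hq => (hT q hq).1)
      (fun q hq => mul_pos (hT' q hq).1 (Real.exp_pos _)) h8
    exact ⟨a1, a2⟩
  · right
    subst h
    have h8 : ∀ z, Hs T c z = Hs (T'.image mir) (fun q => c' (mir q) * Real.exp (q.1 * ρ)) z := by
      intro z
      rw [← hH z]
      unfold Hs
      rw [Finset.sum_image (fun x _ y _ h => mir_inj h)]
      apply Finset.sum_congr rfl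
      intro q _
      show c' q * Real.exp (q.1 * (z.1 + ρ) + q.2 * (-1 * z.2)) =
        c' (mir (mir q)) * Real.exp ((mir q).1 * ρ) *
          Real.exp ((mir q).1 * z.1 + (mir q).2 * z.2)
      rw [mir_mir, mul_assoc, ← Real.exp_add]
      congr 2
      unfold mir
      simp only
      ring
    obtain ⟨a1, a2⟩ := Hs_inj (fun q hq => (hT q hq).1) (fun q hq => by
      obtain ⟨p, hp, rfl⟩ := Finset.mem_image.1 hq
      rw [mir_mir]
      exact mul_pos (hT' p hp).1 (Real.exp_pos _)) h8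
    refine ⟨?_, a2⟩
    rw [← a1, Finset.image_image]
    have : mir ∘ mir = id := funext mir_mir
    rw [this, Finset.image_id]

end Pool.Agent.Helper661.HD
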