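import Pool.Agent.Helper661.HDBase

/-!
# Entire solutions of `u₁₁ u₂₂ = 1`: the solutions with a bijective hodograph map
-/

open Set Filter Topology
open scoped ContDiff

namespace Pool.Agent.Helper661.HD

theorem inequiv {T T' : Finset (ℝ × ℝ)} {c c' : ℝ × ℝ → ℝ} (hT : Adm T c) (hT' : Adm T' c')
    {Y Y' u u' : ℝ × ℝ → ℝ} (h' : Hodo (XT T' c') Y')
    (hu : IsEntire u) (hX : SolOf (XT T c) Y u) (hX' : SolOf (XT T' c') Y' u')
    (he : Equivalent u u') :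
    ∃ ρ : ℝ, (T' = T ∧ ∀ q ∈ T, c' q * Real.exp (q.1 * ρ) = c q) ∨
      (T' = T.image mir ∧ ∀ q ∈ T, c' (mir q) * Real.exp (q.1 * ρ) = c q) := by
  obtain ⟨l, m, s, t, a, b, c₀, d, hl, hm, h1 | h1⟩ := he
  · obtain ⟨ρ, σ, hσ, h2⟩ := transfer_aff h' hu hX hX' hl hm h1
    exact ⟨ρ, rigid_aff hT hT' hσ h2⟩
  · obtain ⟨ρ, σ, hσ, h2⟩ := transfer_swp h' hu hX hX' hl hm h1
    exact (no_swap hT hT' h' hl hσ h2).elim

/-- a solution given by a hodograph pair: the differential of `u₁₁` vanishes nowhere -/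
theorem nowhere_crit {X Y u : ℝ × ℝ → ℝ} (h : Hodo X Y) (hu : ContDiff ℝ ∞ u)
    (hX : SolOf X Y u) (p : ℝ × ℝ) : fderiv ℝ (d1 (d1 u)) p ≠ 0 := by
  obtain ⟨z, rfl⟩ := h.bij.2 p
  intro h0
  have h1 : HasFDerivAt (fun z => d1 (d1 u) (X z, Y z))
      ((fderiv ℝ (d1 (d1 u)) (X z, Y z)).comp
        ((fderiv ℝ X z).prod (fderiv ℝ Y z))) z := by
    have h2 : HasFDerivAt (d1 (d1 u)) (fderiv ℝ (d1 (d1 u)) (X z, Y z)) (X z, Y z) :=
      (diff_of (contDiff_d1 (contDiff_d1 hu)) _).hasFDerivAt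
    exact HasFDerivAt.comp (f := fun z => (X z, Y z)) z h2
      ((diff_of h.smX z).hasFDerivAt.prodMk (diff_of h.smY z).hasFDerivAt)
  simp only at h0
  have e : (fun z => d1 (d1 u) (X z, Y z)) = fun z => Real.exp z.1 := funext fun z => (hX z).1
  rw [e, h0] at h1
  have h3 := HasFDerivAt.d1_eq h1
  rw [d1_exp] at h3
  simp at h3

/-- the hodograph map of `u` -/
noncomputable def hod (u : ℝ × ℝ → ℝ) (p : ℝ × ℝ) : ℝ × ℝ :=
  (Real.log (d1 (d1 u) p), d2 (d1 u) p)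

theorem hod_bij {X Y u : ℝ × ℝ → ℝ} (h : Hodo X Y) (hX : SolOf X Y u) :
    Function.Bijective (hod u) := by
  have e : ∀ z, hod u (X z, Y z) = z := by
    intro z
    unfold hod
    rw [(hX z).1, (hX z).2, Real.log_exp]
  constructor
  · intro p p' hpp
    obtain ⟨z, rfl⟩ := h.bij.2 p
    obtain ⟨z', rfl⟩ := h.bij.2 p'
    simp only [e] at hpp
    rw [hpp]
  · intro z
    exact ⟨_, e z⟩

/-- the hodograph pair is determined by the solution -/
theorem pair_unique {X Y X' Y' u : ℝ × ℝ → ℝ} (h : Hodo X Y) (hX : SolOf X Y u)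
    (hX' : SolOf X' Y' u) : X' = X ∧ Y' = Y := by
  have e : ∀ z, hod u (X z, Y z) = z := by
    intro z
    unfold hod
    rw [(hX z).1, (hX z).2, Real.log_exp]
  have e' : ∀ z, hod u (X' z, Y' z) = z := by
    intro z
    unfold hod
    rw [(hX' z).1, (hX' z).2, Real.log_exp]
  have h1 : ∀ z, (X' z, Y' z) = (X z, Y z) := fun z =>
    (hod_bij h hX).1 ((e' z).trans (e z).symm)
  exact ⟨funext fun z => congrArg Prod.fst (h1 z), funext fun z => congrArg Prod.snd (h1 z)⟩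

theorem fderiv_zero_iff (f : ℝ × ℝ → ℝ) (z : ℝ × ℝ) :
    fderiv ℝ f z = 0 ↔ d1 f z = 0 ∧ d2 f z = 0 := by
  constructor
  · intro h
    unfold d1 d2
    rw [h]
    exact ⟨rfl, rfl⟩
  · rintro ⟨h1, h2⟩
    ext
    · simpa [d1] using h1
    · simpa [d2] using h2

theorem crit_equiv {u u' : ℝ × ℝ → ℝ} (hu : ContDiff ℝ ∞ u) (he : IsEntire u)
    (hc : ∀ p, fderiv ℝ (d1 (d1 u)) p ≠ 0) (h : Equivalent u u') (p : ℝ × ℝ) :
    fderiv ℝ (d1 (d1 u')) p ≠ 0 := by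
  have hs : ContDiff ℝ ∞ (d1 (d1 u)) := contDiff_d1 (contDiff_d1 hu)
  obtain ⟨l, m, s, t, a, b, c₀, d, hl, hm, h1 | h1⟩ := h
  · obtain ⟨e1, _⟩ := sym_aff he.c2 h1
    have hk : |l * m|⁻¹ * l ^ 2 ≠ 0 := by
      have : |l * m| ≠ 0 := abs_ne_zero.2 (mul_ne_zero hl hm)
      positivity
    intro h0
    rw [fderiv_zero_iff] at h0
    have e : d1 (d1 u') = fun x : ℝ × ℝ => (|l * m|⁻¹ * l ^ 2) *
        (fun x : ℝ × ℝ => d1 (d1 u) (l * x.1 + s, m * x.2 + t)) x + (0 + 0 * x.2) := by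
      funext x
      rw [e1 x]
      ring
    have hd := diff_of hs
    rw [e, d1_add_lin _ _ _ (diff_aff hd l m s t), d2_add_lin _ _ _ (diff_aff hd l m s t),
      d1_aff hd, d2_aff hd] at h0
    obtain ⟨a1, a2⟩ := h0
    apply hc (l * p.1 + s, m * p.2 + t)
    rw [fderiv_zero_iff]
    constructor
    · have : (|l * m|⁻¹ * l ^ 2) * l * d1 (d1 (d1 u)) (l * p.1 + s, m * p.2 + t) = 0 := by
        linarith
      exact (mul_eq_zero.1 this).resolve_left (mul_ne_zero hk hl)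
    · have : (|l * m|⁻¹ * l ^ 2) * m * d2 (d1 (d1 u)) (l * p.1 + s, m * p.2 + t) = 0 := by
        linarith
      exact (mul_eq_zero.1 this).resolve_left (mul_ne_zero hk hm)
  · obtain ⟨e1, _⟩ := sym_swp he.c2 h1
    have hk : |l * m|⁻¹ * m ^ 2 ≠ 0 := by
      have : |l * m| ≠ 0 := abs_ne_zero.2 (mul_ne_zero hl hm)
      positivity
    intro h0
    rw [fderiv_zero_iff] at h0
    have hs2 : ContDiff ℝ ∞ (d2 (d2 u)) := contDiff_d2 (contDiff_d2 hu)
    have e : d1 (d1 u') = fun x : ℝ × ℝ => (|l * m|⁻¹ * m ^ 2) *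
        (fun x : ℝ × ℝ => d2 (d2 u) (l * x.2 + s, m * x.1 + t)) x + (0 + 0 * x.2) := by
      funext x
      rw [e1 x]
      ring
    have hd := diff_of hs2
    rw [e, d1_add_lin _ _ _ (diff_swp hd l m s t), d2_add_lin _ _ _ (diff_swp hd l m s t),
      d1_swp hd, d2_swp hd] at h0
    obtain ⟨a1, a2⟩ := h0
    have b1 : d2 (d2 (d2 u)) (l * p.2 + s, m * p.1 + t) = 0 := by
      have : (|l * m|⁻¹ * m ^ 2) * m * d2 (d2 (d2 u)) (l * p.2 + s, m * p.1 + t) = 0 := by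
        linarith
      exact (mul_eq_zero.1 this).resolve_left (mul_ne_zero hk hm)
    have b2 : d1 (d2 (d2 u)) (l * p.2 + s, m * p.1 + t) = 0 := by
      have : (|l * m|⁻¹ * m ^ 2) * l * d1 (d2 (d2 u)) (l * p.2 + s, m * p.1 + t) = 0 := by
        linarith
      exact (mul_eq_zero.1 this).resolve_left (mul_ne_zero hk hl)
    set P : ℝ × ℝ := (l * p.2 + s, m * p.1 + t) with hP
    -- `u₁₁ = 1 / u₂₂`
    have e3 : d1 (d1 u) = fun z => (d2 (d2 u) z)⁻¹ := by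
      funext z
      have := he.eq z
      exact eq_inv_of_mul_eq_one_left this
    have hne : d2 (d2 u) P ≠ 0 := by
      intro h9
      have := he.eq P
      rw [h9, mul_zero] at this
      exact zero_ne_one this
    apply hc P
    rw [e3]
    have h5 : HasFDerivAt (fun z => (d2 (d2 u) z)⁻¹)
        (-(d2 (d2 u) P ^ 2)⁻¹ • fderiv ℝ (d2 (d2 u)) P) P :=
      (hasDerivAt_inv hne).comp_hasFDerivAt P (hd P).hasFDerivAt
    rw [h5.fderiv, (fderiv_zero_iff _ _).2 ⟨b2, b1⟩, smul_zero]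

end Pool.Agent.Helper661.HD
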